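import Pool.Agent.Helper4.GR.Nice

/-!
# Bonferroni inequalities, pointwise and for densities
-/

set_option autoImplicit false

open Finset

namespace Pool.Agent.Helper4.GR

/-- the subsets of `B` with at most `b` elements -/
def small (B : Finset ℕ) (b : ℕ) : Finset (Finset ℕ) := (range (b + 1)).biUnion fun k => powersetCard k B

theorem sum_small (B : Finset ℕ) (b : ℕ) (f : Finset ℕ → ℝ) :
    ∑ S ∈ small B b, f S = ∑ k ∈ range (b + 1), ∑ S ∈ powersetCard k B, f S := by
  unfold small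
  rw [Finset.sum_biUnion]
  intro i _ j _ hij
  exact Finset.pairwise_disjoint_powersetCard B hij

theorem mem_small {B : Finset ℕ} {b : ℕ} {S : Finset ℕ} (h : S ∈ small B b) : S ⊆ B := by
  unfold small at h
  obtain ⟨k, _, hk⟩ := mem_biUnion.1 h
  exact (mem_powersetCard.1 hk).1

theorem card_small_le (B : Finset ℕ) (b : ℕ) : (small B b).card ≤ (B.card + 1) ^ b := by
  have h1 : (small B b).card ≤ ∑ k ∈ range (b + 1), (powersetCard k B).card := by
    unfold small
    exact Finset.card_biUnion_le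
  refine h1.trans ?_
  rw [add_pow]
  refine Finset.sum_le_sum fun k hk => ?_
  rw [Finset.card_powersetCard, one_pow, mul_one]
  have hk' : k ≤ b := by
    rw [mem_range] at hk
    omega
  have h2 : B.card.choose k ≤ B.card ^ k := Nat.choose_le_pow B.card k
  have h3 : 1 ≤ b.choose k := Nat.choose_pos hk'
  calc B.card.choose k ≤ B.card ^ k * 1 := by rw [mul_one]; exact h2
    _ ≤ B.card ^ k * b.choose k := Nat.mul_le_mul_left _ h3

/-- the elements of `B` modulo which `r` is congruent to `n` -/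
def om (n : ℕ) (B : Finset ℕ) (r : ℕ) : Finset ℕ := B.filter fun q => r ≡ n [MOD q]

theorem sum_ind (n : ℕ) (B : Finset ℕ) (k r : ℕ) :
    ∑ S ∈ powersetCard k B, ind n S r = ((om n B r).card.choose k : ℝ) := by
  have h1 : ∑ S ∈ powersetCard k B, ind n S r =
      (((powersetCard k B).filter fun S => ∀ q ∈ S, r ≡ n [MOD q]).card : ℝ) := by
    rw [Finset.card_filter]
    push_cast
    rfl
  rw [h1]
  have h2 : (powersetCard k B).filter (fun S => ∀ q ∈ S, r ≡ n [MOD q]) = powersetCard k (om n B r) := by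
    ext S
    rw [mem_filter, mem_powersetCard, mem_powersetCard]
    unfold om
    constructor
    · rintro ⟨⟨h3, h4⟩, h5⟩
      exact ⟨fun q hq => mem_filter.2 ⟨h3 hq, h5 q hq⟩, h4⟩
    · rintro ⟨h3, h4⟩
      exact ⟨⟨fun q hq => (mem_filter.1 (h3 hq)).1, h4⟩, fun q hq => (mem_filter.1 (h3 hq)).2⟩
  rw [h2, Finset.card_powersetCard]

/-- the truncated inclusion exclusion sum -/
noncomputable def U (n : ℕ) (B : Finset ℕ) (b r : ℕ) : ℝ := ∑ S ∈ small B b, (-1) ^ S.card * ind n S r

/-- the next term -/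
noncomputable def V (n : ℕ) (B : Finset ℕ) (b r : ℕ) : ℝ := ∑ S ∈ powersetCard (b + 1) B, 1 * ind n S r

theorem U_eq (n : ℕ) (B : Finset ℕ) (b r : ℕ) :
    U n B b r = ∑ k ∈ range (b + 1), (-1) ^ k * ((om n B r).card.choose k : ℝ) := by
  unfold U
  rw [sum_small]
  refine Finset.sum_congr rfl fun k _ => ?_
  rw [← sum_ind, Finset.mul_sum]
  refine Finset.sum_congr rfl fun S hS => ?_
  rw [(mem_powersetCard.1 hS).2]

theorem V_eq (n : ℕ) (B : Finset ℕ) (b r : ℕ) : V n B b r = ((om n B r).card.choose (b + 1) : ℝ) := by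
  unfold V
  simp_rw [one_mul]
  exact sum_ind n B (b + 1) r

theorem UV_empty {n : ℕ} {B : Finset ℕ} {b r : ℕ} (h : om n B r = ∅) : U n B b r = 1 ∧ V n B b r = 0 := by
  rw [U_eq, V_eq, h, Finset.card_empty]
  constructor
  · rw [Finset.sum_range_succ']
    rw [Finset.sum_eq_zero]
    · simp
    · intro k _
      simp
  · simp

theorem UV_ne {n : ℕ} {B : Finset ℕ} {b r : ℕ} (hb : Even b) (h : om n B r ≠ ∅) :
    0 ≤ U n B b r ∧ U n B b r ≤ V n B b r := by
  rw [U_eq, V_eq]
  obtain ⟨w, hw⟩ := Nat.exists_eq_succ_of_ne_zero (Finset.card_ne_zero.2 (Finset.nonempty_iff_ne_empty.2 h))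
  rw [hw]
  have h1 := Int.alternating_sum_range_choose_eq_choose (n := w) (m := b)
  have h2 : ∑ k ∈ range (b + 1), (-1 : ℝ) ^ k * (((w + 1).choose k : ℕ) : ℝ) = (-1) ^ b * (w.choose b : ℝ) := by
    exact_mod_cast h1
  rw [Nat.succ_eq_add_one, h2, hb.neg_one_pow, one_mul]
  constructor
  · positivity
  · rw [Nat.choose_succ_succ]
    push_cast
    have : (0 : ℝ) ≤ (w.choose (b + 1) : ℝ) := by positivity
    linarith

/-- the elementary symmetric sums of the reciprocals -/
noncomputable def es (B : Finset ℕ) (k : ℕ) : ℝ := ∑ S ∈ powersetCard k B, 1 / ((∏ q ∈ S, q : ℕ) : ℝ)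

theorem es_zero (B : Finset ℕ) : es B 0 = 1 := by
  unfold es
  simp

theorem es_empty (k : ℕ) : es ∅ (k + 1) = 0 := by
  unfold es
  rw [Finset.powersetCard_eq_empty.2 (by simp)]
  simp

theorem es_insert {B : Finset ℕ} {p : ℕ} (hp : p ∉ B) (k : ℕ) :
    es (insert p B) (k + 1) = es B (k + 1) + 1 / (p : ℝ) * es B k := by
  unfold es
  rw [Finset.powersetCard_succ_insert hp, Finset.sum_union]
  · congr 1
    rw [Finset.sum_image]
    · rw [Finset.mul_sum]
      refine Finset.sum_congr rfl fun S hS => ?_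
      have h1 : p ∉ S := fun h => hp ((mem_powersetCard.1 hS).1 h)
      rw [Finset.prod_insert h1, Nat.cast_mul, ← one_div_mul_one_div]
    · intro S hS S' hS' h
      have h1 : p ∉ S := fun h' => hp ((mem_powersetCard.1 (mem_coe.1 hS)).1 h')
      have h2 : p ∉ S' := fun h' => hp ((mem_powersetCard.1 (mem_coe.1 hS')).1 h')
      have h3 : insert p S = insert p S' := h
      rw [← Finset.erase_insert h1, h3, Finset.erase_insert h2]
  · rw [Finset.disjoint_left]
    intro S hS hS'
    obtain ⟨S', _, rfl⟩ := mem_image.1 hS'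
    exact hp ((mem_powersetCard.1 hS).1 (mem_insert_self _ _))

theorem es_nonneg (B : Finset ℕ) (k : ℕ) : 0 ≤ es B k := Finset.sum_nonneg fun _ _ => by positivity

theorem pow_add_le {s x : ℝ} (hs : 0 ≤ s) (hx : 0 ≤ x) (k : ℕ) :
    s ^ (k + 1) + (k + 1) * s ^ k * x ≤ (s + x) ^ (k + 1) := by
  induction k with
  | zero => simp
  | succ k ih =>
    have h1 : (s ^ (k + 1) + (k + 1) * s ^ k * x) * (s + x) ≤ (s + x) ^ (k + 1) * (s + x) :=
      mul_le_mul_of_nonneg_right ih (add_nonneg hs hx)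
    have h2 : (s + x) ^ (k + 1 + 1) = (s + x) ^ (k + 1) * (s + x) := pow_succ _ _
    rw [h2]
    refine le_trans ?_ h1
    have h3 : (s ^ (k + 1) + (k + 1) * s ^ k * x) * (s + x) =
        s ^ (k + 1 + 1) + ((k : ℝ) + 1 + 1) * s ^ (k + 1) * x + (k + 1) * s ^ k * (x * x) := by
      ring
    rw [h3]
    push_cast
    have h4 : 0 ≤ ((k : ℝ) + 1) * s ^ k * (x * x) := by positivity
    linarith

theorem es_le (B : Finset ℕ) (k : ℕ) : es B k ≤ (∑ q ∈ B, (1 : ℝ) / q) ^ k / (k.factorial : ℝ) := by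
  induction B using Finset.induction_on generalizing k with
  | empty =>
    cases k with
    | zero => simp [es_zero]
    | succ k =>
      rw [es_empty]
      positivity
  | insert p B hp ih =>
    cases k with
    | zero =>
      rw [es_zero]
      simp
    | succ k =>
      rw [es_insert hp, Finset.sum_insert hp]
      have hs : (0 : ℝ) ≤ ∑ q ∈ B, (1 : ℝ) / q := Finset.sum_nonneg fun _ _ => by positivity
      have hx : (0 : ℝ) ≤ 1 / (p : ℝ) := by positivity
      have h1 := ih (k + 1)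
      have h2 := mul_le_mul_of_nonneg_left (ih k) hx
      have h3 := pow_add_le hs hx k
      set s := ∑ q ∈ B, (1 : ℝ) / q
      set x := (1 : ℝ) / p
      have hf : (0 : ℝ) < (k.factorial : ℝ) := by positivity
      have h4 : s ^ (k + 1) / ((k + 1).factorial : ℝ) + x * (s ^ k / (k.factorial : ℝ)) =
          (s ^ (k + 1) + (k + 1) * s ^ k * x) / ((k + 1).factorial : ℝ) := by
        rw [Nat.factorial_succ]
        push_cast
        field_simp
      calc es B (k + 1) + x * es B k ≤ s ^ (k + 1) / ((k + 1).factorial : ℝ) + x * (s ^ k / (k.factorial : ℝ)) :=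
            add_le_add h1 h2
        _ = (s ^ (k + 1) + (k + 1) * s ^ k * x) / ((k + 1).factorial : ℝ) := h4
        _ ≤ (s + x) ^ (k + 1) / ((k + 1).factorial : ℝ) := by gcongr
        _ = _ := by rw [add_comm s x]

/-- the truncated density -/
noncomputable def us (B : Finset ℕ) (b : ℕ) : ℝ := ∑ k ∈ range (b + 1), (-1) ^ k * es B k

theorem us_zero (B : Finset ℕ) : us B 0 = 1 := by
  unfold us
  simp [es_zero]

theorem us_insert {B : Finset ℕ} {p : ℕ} (hp : p ∉ B) (b : ℕ) :
    us (insert p B) (b + 1) = us B (b + 1) - 1 / (p : ℝ) * us B b := by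
  have key : ∀ b : ℕ, ∑ k ∈ range b, (-1 : ℝ) ^ (k + 1) * es (insert p B) (k + 1) =
      ∑ k ∈ range b, (-1 : ℝ) ^ (k + 1) * es B (k + 1) - 1 / (p : ℝ) * ∑ k ∈ range b, (-1) ^ k * es B k := by
    intro b
    rw [Finset.mul_sum, ← Finset.sum_sub_distrib]
    refine Finset.sum_congr rfl fun k _ => ?_
    rw [es_insert hp]
    ring
  unfold us
  rw [Finset.sum_range_succ' _ (b + 1), key (b + 1), Finset.sum_range_succ' (fun k => (-1 : ℝ) ^ k * es B k) (b + 1),
    es_zero, es_zero]
  ring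

theorem us_ge (B : Finset ℕ) (hB : ∀ q ∈ B, 1 ≤ q) (b : ℕ) :
    0 ≤ (-1 : ℝ) ^ b * (us B b - ∏ q ∈ B, (1 - 1 / (q : ℝ))) ∧ 0 ≤ ∏ q ∈ B, (1 - 1 / (q : ℝ)) ∧
      ∏ q ∈ B, (1 - 1 / (q : ℝ)) ≤ 1 := by
  induction B using Finset.induction_on generalizing b with
  | empty =>
    have h1 : us ∅ b = 1 := by
      unfold us
      rw [Finset.sum_range_succ', Finset.sum_eq_zero]
      · simp [es_zero]
      · intro k _
        rw [es_empty, mul_zero]
    rw [h1]
    simp
  | insert p B hp ih =>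
    have ih' := fun b => ih (fun q hq => hB q (mem_insert_of_mem hq)) b
    have hp1 : (1 : ℝ) ≤ p := by exact_mod_cast hB p (mem_insert_self _ _)
    have hx0 : (0 : ℝ) ≤ 1 / (p : ℝ) := by positivity
    have hx1 : 1 / (p : ℝ) ≤ 1 := by
      rw [div_le_one (by linarith)]
      exact hp1
    rw [Finset.prod_insert hp]
    have h0 := ih' 0
    refine ⟨?_, mul_nonneg (by linarith) h0.2.1, ?_⟩
    · cases b with
      | zero =>
        rw [us_zero, pow_zero, one_mul]
        have : (1 - 1 / (p : ℝ)) * ∏ q ∈ B, (1 - 1 / (q : ℝ)) ≤ 1 * 1 :=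
          mul_le_mul (by linarith) h0.2.2 h0.2.1 zero_le_one
        linarith
      | succ b =>
        rw [us_insert hp]
        have h1 := (ih' (b + 1)).1
        have h2 := mul_nonneg hx0 (ih' b).1
        have h3 : (-1 : ℝ) ^ (b + 1) * (us B (b + 1) - 1 / (p : ℝ) * us B b -
            (1 - 1 / (p : ℝ)) * ∏ q ∈ B, (1 - 1 / (q : ℝ))) =
            (-1 : ℝ) ^ (b + 1) * (us B (b + 1) - ∏ q ∈ B, (1 - 1 / (q : ℝ))) +
            1 / (p : ℝ) * ((-1 : ℝ) ^ b * (us B b - ∏ q ∈ B, (1 - 1 / (q : ℝ)))) := by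
          rw [pow_succ]
          ring
        rw [h3]
        linarith
    · have : (1 - 1 / (p : ℝ)) * ∏ q ∈ B, (1 - 1 / (q : ℝ)) ≤ 1 * 1 :=
        mul_le_mul (by linarith) h0.2.2 h0.2.1 zero_le_one
      linarith

theorem sum_small_eq (B : Finset ℕ) (b : ℕ) :
    ∑ S ∈ small B b, (-1 : ℝ) ^ S.card / ((∏ q ∈ S, q : ℕ) : ℝ) = us B b := by
  rw [sum_small]
  unfold us es
  refine Finset.sum_congr rfl fun k _ => ?_
  rw [Finset.mul_sum]
  refine Finset.sum_congr rfl fun S hS => ?_
  rw [(mem_powersetCard.1 hS).2, mul_one_div]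

end Pool.Agent.Helper4.GR
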