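import Pool.Agent.Helper4.GR.Bonf
import Pool.Agent.Helper71.AS.rough

/-!
# A lower bound sieve (Brun, Hooley) for an interval
-/

set_option autoImplicit false

open Finset

namespace Pool.Agent.Helper4.GR

open Pool.Agent.Helper71.AS.Rough (sum_dyadic exp_neg_le)

theorem sum_block {a : ℕ} (ha : 1 ≤ a) (c : ℕ) :
    ∑ p ∈ (Ioc (2 ^ a) (2 ^ (a + c))).filter Nat.Prime, (1 : ℝ) / p ≤ c * (4 / a) := by
  induction c with
  | zero => simp
  | succ c ih =>
    have h1 : (Ioc (2 ^ a) (2 ^ (a + (c + 1)))).filter Nat.Prime =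
        (Ioc (2 ^ a) (2 ^ (a + c))).filter Nat.Prime ∪ (Ioc (2 ^ (a + c)) (2 ^ (a + c + 1))).filter Nat.Prime := by
      have h2 : 2 ^ a ≤ 2 ^ (a + c) := Nat.pow_le_pow_right (by norm_num) (by omega)
      have h3 : 2 ^ (a + c) ≤ 2 ^ (a + c + 1) := Nat.pow_le_pow_right (by norm_num) (by omega)
      ext p
      rw [mem_union, mem_filter, mem_filter, mem_filter, mem_Ioc, mem_Ioc, mem_Ioc, ← add_assoc]
      constructor
      · rintro ⟨⟨h4, h5⟩, h6⟩
        by_cases h7 : p ≤ 2 ^ (a + c)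
        · exact Or.inl ⟨⟨h4, h7⟩, h6⟩
        · exact Or.inr ⟨⟨by omega, h5⟩, h6⟩
      · rintro (⟨⟨h4, h5⟩, h6⟩ | ⟨⟨h4, h5⟩, h6⟩)
        · exact ⟨⟨h4, by omega⟩, h6⟩
        · exact ⟨⟨by omega, h5⟩, h6⟩
    have h2 : Disjoint ((Ioc (2 ^ a) (2 ^ (a + c))).filter Nat.Prime)
        ((Ioc (2 ^ (a + c)) (2 ^ (a + c + 1))).filter Nat.Prime) := by
      rw [Finset.disjoint_left]
      intro p hp hp'
      have h3 := (mem_Ioc.1 (mem_filter.1 hp).1).2
      have h4 := (mem_Ioc.1 (mem_filter.1 hp').1).1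
      omega
    rw [h1, Finset.sum_union h2]
    have h3 := sum_dyadic (k := a + c) (by omega)
    have h4 : (4 : ℝ) / ((a + c : ℕ) : ℝ) ≤ 4 / a := by
      apply div_le_div_of_nonneg_left (by norm_num)
      · exact_mod_cast (show 0 < a by omega)
      · exact_mod_cast (show a ≤ a + c by omega)
    push_cast at h3 h4 ⊢
    linarith

theorem sum_double {a : ℕ} (ha : 1 ≤ a) :
    ∑ p ∈ (Ioc (2 ^ a) (2 ^ (2 * a))).filter Nat.Prime, (1 : ℝ) / p ≤ 4 := by
  have h1 := sum_block ha a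
  rw [← two_mul] at h1
  have h2 : (a : ℝ) * (4 / a) = 4 := by
    have : (a : ℝ) ≠ 0 := by exact_mod_cast (show a ≠ 0 by omega)
    field_simp
  linarith

/-- the borders of the blocks -/
def zz : ℕ → ℕ
  | 0 => 1
  | t + 1 => 2 ^ 2 ^ t

theorem one_le_zz (t : ℕ) : 1 ≤ zz t := by
  cases t with
  | zero => exact le_rfl
  | succ t => exact Nat.one_le_two_pow

theorem zz_mono (t : ℕ) : zz t ≤ zz (t + 1) := by
  cases t with
  | zero => exact Nat.one_le_two_pow
  | succ t => exact Nat.pow_le_pow_right (by norm_num) (Nat.pow_le_pow_right (by norm_num) (by omega))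

/-- the blocks -/
def Bl (t : ℕ) : Finset ℕ := (Ioc (zz t) (zz (t + 1))).filter Nat.Prime

theorem sum_Bl (t : ℕ) : ∑ p ∈ Bl t, (1 : ℝ) / p ≤ 4 := by
  cases t with
  | zero =>
    have h1 : Bl 0 = {2} := by
      unfold Bl zz
      decide
    rw [h1]
    norm_num
  | succ t =>
    have h1 : Bl (t + 1) = (Ioc (2 ^ 2 ^ t) (2 ^ (2 * 2 ^ t))).filter Nat.Prime := by
      have h2 : zz (t + 1) = 2 ^ 2 ^ t := rfl
      have h3 : zz (t + 1 + 1) = 2 ^ 2 ^ (t + 1) := rfl
      unfold Bl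
      rw [h2, h3, pow_succ 2 t, mul_comm (2 ^ t) 2]
    rw [h1]
    exact sum_double Nat.one_le_two_pow

theorem mem_Bl {t q : ℕ} : q ∈ Bl t ↔ q.Prime ∧ zz t < q ∧ q ≤ zz (t + 1) := by
  unfold Bl
  rw [mem_filter, mem_Ioc]
  tauto

theorem card_Bl (t : ℕ) : (Bl t).card + 1 ≤ zz (t + 1) := by
  have h1 : (Bl t).card ≤ zz (t + 1) - zz t := by
    rw [← Nat.card_Ioc]
    exact Finset.card_le_card (Finset.filter_subset _ _)
  have h2 := one_le_zz t
  have h3 := zz_mono t
  omega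

theorem prod_Bl (t : ℕ) : Real.exp (-8) ≤ ∏ q ∈ Bl t, (1 - 1 / (q : ℝ)) := by
  have h1 : Real.exp (-(2 * ∑ p ∈ Bl t, (1 : ℝ) / p)) ≤ ∏ p ∈ Bl t, (1 - 1 / (p : ℝ)) := by
    rw [Finset.mul_sum, ← Finset.sum_neg_distrib, Real.exp_sum]
    refine Finset.prod_le_prod (fun _ _ => (Real.exp_pos _).le) fun p hp => ?_
    have h2 := (mem_Bl.1 hp).1.two_le
    refine exp_neg_le (by positivity) ?_
    exact one_div_le_one_div_of_le (by norm_num) (by exact_mod_cast h2)
  refine le_trans (Real.exp_le_exp.2 ?_) h1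
  have := sum_Bl t
  linarith

/-- the truncation parameters -/
def bb (J i : ℕ) : ℕ := 16 + 2 * (J - i)

theorem bb_even (J i : ℕ) : Even (bb J i) := ⟨8 + (J - i), by unfold bb; omega⟩

noncomputable def EE (J t : ℕ) : ℝ := ∏ i ∈ range t, ((zz (i + 1) : ℕ) : ℝ) ^ (bb J i + 1)

noncomputable def del (J i : ℕ) : ℝ := Real.exp 8 * (4 ^ (bb J i + 1) / ((bb J i + 1).factorial : ℝ))

/-- the indicator of the sifted set -/
noncomputable def Id (n t r : ℕ) : ℝ := by
  classical
  exact if ∀ q : ℕ, q.Prime → q ≤ zz t → ¬ r ≡ n [MOD q] then 1 else 0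

theorem Id_succ (n t r : ℕ) : (Id n (t + 1) r = 1 ∧ Id n t r = 1 ∧ om n (Bl t) r = ∅) ∨
    (Id n (t + 1) r = 0 ∧ (Id n t r = 0 ∨ om n (Bl t) r ≠ ∅)) := by
  classical
  unfold Id
  by_cases h1 : ∀ q : ℕ, q.Prime → q ≤ zz (t + 1) → ¬ r ≡ n [MOD q]
  · left
    rw [if_pos h1, if_pos fun q hq hqz => h1 q hq (hqz.trans (zz_mono t))]
    refine ⟨rfl, rfl, ?_⟩
    unfold om
    rw [Finset.filter_eq_empty_iff]
    intro q hq
    have h2 := mem_Bl.1 hq
    exact h1 q h2.1 h2.2.2
  · right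
    rw [if_neg h1]
    refine ⟨rfl, ?_⟩
    push Not at h1
    obtain ⟨q, hq, hqz, hr⟩ := h1
    by_cases h2 : q ≤ zz t
    · left
      rw [if_neg]
      exact fun h => h q hq h2 hr
    · right
      intro h3
      have h4 : q ∈ om n (Bl t) r := mem_filter.2 ⟨mem_Bl.2 ⟨hq, by omega, hqz⟩, hr⟩
      rw [h3] at h4
      exact absurd h4 (Finset.notMem_empty q)

theorem Id_cases (n t r : ℕ) : Id n t r = 0 ∨ Id n t r = 1 := by
  classical
  unfold Id
  split_ifs
  · exact Or.inr rfl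
  · exact Or.inl rfl

theorem EE_pos (J t : ℕ) : 0 < EE J t := by
  unfold EE
  refine Finset.prod_pos fun i _ => ?_
  have := one_le_zz (i + 1)
  have h2 : (0 : ℝ) < ((zz (i + 1) : ℕ) : ℝ) := by exact_mod_cast this
  positivity

theorem state (n y J t : ℕ) : ∃ (P L : ℕ → ℝ) (p l : ℝ),
    Nice n y (zz t) P p (EE J t) ∧ Nice n y (zz t) L l ((t + 1) * EE J t) ∧ (∀ r, 0 ≤ P r) ∧
    (∀ r, L r ≤ Id n t r) ∧ (∀ r, Id n t r = 1 → P r = 1 ∧ L r = 1) ∧ Real.exp (-8) ^ t ≤ p ∧
    p * (1 - ∑ i ∈ range t, del J i) ≤ l := by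
  classical
  induction t with
  | zero =>
    refine ⟨fun _ => 1, fun _ => 1, 1, 1, ?_, ?_, fun _ => zero_le_one, fun r => ?_, fun _ _ => ⟨rfl, rfl⟩, ?_, ?_⟩
    · have h1 : EE J 0 = 1 := by
        unfold EE
        simp
      rw [h1]
      exact nice_one n y
    · have h1 : EE J 0 = 1 := by
        unfold EE
        simp
      rw [h1]
      simp only [Nat.cast_zero, zero_add, mul_one]
      exact nice_one n y
    · unfold Id
      rw [if_pos]
      intro q hq hqz
      have := hq.two_le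
      have h2 : zz 0 = 1 := rfl
      omega
    · simp
    · simp
  | succ t ih =>
    obtain ⟨P, L, p, l, hP, hL, hP0, hLI, hI, hp, hl⟩ := ih
    set b := bb J t with hb
    have hz := zz_mono t
    have hzpos : (1 : ℝ) ≤ ((zz (t + 1) : ℕ) : ℝ) := by exact_mod_cast one_le_zz (t + 1)
    have hBl : ∀ q ∈ Bl t, q.Prime ∧ zz t < q ∧ q ≤ zz (t + 1) := fun q hq => mem_Bl.1 hq
    have hcU : (((small (Bl t) b).card : ℕ) : ℝ) ≤ ((zz (t + 1) : ℕ) : ℝ) ^ b := by
      have h1 := (card_small_le (Bl t) b).trans (Nat.pow_le_pow_left (card_Bl t) b)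
      exact_mod_cast h1
    have hcV : (((powersetCard (b + 1) (Bl t)).card : ℕ) : ℝ) ≤ ((zz (t + 1) : ℕ) : ℝ) ^ (b + 1) := by
      rw [Finset.card_powersetCard]
      have h1 := (Nat.choose_le_pow (Bl t).card (b + 1)).trans
        (Nat.pow_le_pow_left (show (Bl t).card ≤ zz (t + 1) by
          have := card_Bl t
          omega) (b + 1))
      exact_mod_cast h1
    have hsU : ∀ S ∈ small (Bl t) b, S ⊆ Bl t := fun S hS => mem_small hS
    have hsV : ∀ S ∈ powersetCard (b + 1) (Bl t), S ⊆ Bl t := fun S hS => (mem_powersetCard.1 hS).1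
    have habs : ∀ S ∈ small (Bl t) b, |(-1 : ℝ) ^ S.card| ≤ 1 := by
      intro S _
      rw [abs_pow, abs_neg, abs_one, one_pow]
    have habs' : ∀ S ∈ powersetCard (b + 1) (Bl t), |(1 : ℝ)| ≤ 1 := by
      intro S _
      rw [abs_one]
    have hPU := hP.step hz (Bl t) hBl (small (Bl t) b) hsU (fun S => (-1) ^ S.card) habs
    have hLU := hL.step hz (Bl t) hBl (small (Bl t) b) hsU (fun S => (-1) ^ S.card) habs
    have hPV := hP.step hz (Bl t) hBl (powersetCard (b + 1) (Bl t)) hsV (fun _ => 1) habs'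
    have hEpos := EE_pos J t
    have hE : EE J (t + 1) = EE J t * ((zz (t + 1) : ℕ) : ℝ) ^ (b + 1) := by
      unfold EE
      rw [Finset.prod_range_succ]
    have hzb : ((zz (t + 1) : ℕ) : ℝ) ^ b ≤ ((zz (t + 1) : ℕ) : ℝ) ^ (b + 1) :=
      pow_le_pow_right₀ hzpos (by omega)
    have hus : Real.exp (-8) ≤ us (Bl t) b := by
      have h1 := (us_ge (Bl t) (fun q hq => (hBl q hq).1.one_le) b).1
      rw [(bb_even J t).neg_one_pow, one_mul] at h1
      have h2 := prod_Bl t
      linarith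
    have huspos : 0 < us (Bl t) b := lt_of_lt_of_le (Real.exp_pos _) hus
    have hppos : 0 < p := lt_of_lt_of_le (pow_pos (Real.exp_pos _) _) hp
    refine ⟨fun r => P r * U n (Bl t) b r, fun r => L r * U n (Bl t) b r - P r * V n (Bl t) b r,
      p * us (Bl t) b, l * us (Bl t) b - p * es (Bl t) (b + 1), ?_, ?_, ?_, ?_, ?_, ?_, ?_⟩
    · rw [sum_small_eq] at hPU
      refine Nice.mono hPU ?_
      rw [hE]
      exact mul_le_mul_of_nonneg_left (hcU.trans hzb) hEpos.le
    · rw [sum_small_eq] at hLU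
      refine Nice.mono (hLU.sub hPV) ?_
      rw [hE]
      have h1 : (↑t + 1) * EE J t * (((small (Bl t) b).card : ℕ) : ℝ) ≤
          (↑t + 1) * EE J t * ((zz (t + 1) : ℕ) : ℝ) ^ (b + 1) :=
        mul_le_mul_of_nonneg_left (hcU.trans hzb) (by positivity)
      have h2 : EE J t * (((powersetCard (b + 1) (Bl t)).card : ℕ) : ℝ) ≤
          EE J t * ((zz (t + 1) : ℕ) : ℝ) ^ (b + 1) :=
        mul_le_mul_of_nonneg_left hcV hEpos.le
      push_cast
      linarith
    · intro r
      refine mul_nonneg (hP0 r) ?_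
      by_cases h1 : om n (Bl t) r = ∅
      · rw [(UV_empty h1).1]
        exact zero_le_one
      · exact (UV_ne (bb_even J t) h1).1
    · intro r
      show L r * U n (Bl t) b r - P r * V n (Bl t) b r ≤ Id n (t + 1) r
      rcases Id_succ n t r with ⟨h1, h2, h3⟩ | ⟨h1, h2⟩
      · rw [h1, (UV_empty h3).1, (UV_empty h3).2, (hI r h2).2]
        norm_num
      · rw [h1]
        by_cases h3 : om n (Bl t) r = ∅
        · have h4 : Id n t r = 0 := by
            rcases h2 with h2 | h2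
            · exact h2
            · exact absurd h3 h2
          have h5 := hLI r
          rw [(UV_empty h3).1, (UV_empty h3).2]
          linarith
        · have h4 := UV_ne (bb_even J t) (b := bb J t) h3
          rw [← hb] at h4
          rcases Id_cases n t r with h5 | h5
          · have h6 := hLI r
            rw [h5] at h6
            have h7 : L r * U n (Bl t) b r ≤ 0 := mul_nonpos_of_nonpos_of_nonneg h6 h4.1
            have h8 : 0 ≤ P r * V n (Bl t) b r := mul_nonneg (hP0 r) (h4.1.trans h4.2)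
            linarith
          · rw [(hI r h5).1, (hI r h5).2]
            linarith [h4.2]
    · intro r hr
      show P r * U n (Bl t) b r = 1 ∧ L r * U n (Bl t) b r - P r * V n (Bl t) b r = 1
      rcases Id_succ n t r with ⟨h1, h2, h3⟩ | ⟨h1, h2⟩
      · rw [(UV_empty h3).1, (UV_empty h3).2, (hI r h2).1, (hI r h2).2]
        norm_num
      · rw [h1] at hr
        exact absurd hr (by norm_num)
    · rw [pow_succ]
      exact mul_le_mul hp hus (Real.exp_pos _).le hppos.le
    · rw [Finset.sum_range_succ]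
      have h1 : es (Bl t) (b + 1) ≤ del J t * us (Bl t) b := by
        have h2 := es_le (Bl t) (b + 1)
        have h3 : (∑ q ∈ Bl t, (1 : ℝ) / q) ^ (b + 1) ≤ 4 ^ (b + 1) :=
          pow_le_pow_left₀ (Finset.sum_nonneg fun _ _ => by positivity) (sum_Bl t) _
        have h4 : (∑ q ∈ Bl t, (1 : ℝ) / q) ^ (b + 1) / ((b + 1).factorial : ℝ) ≤
            4 ^ (b + 1) / ((b + 1).factorial : ℝ) := by gcongr
        have h5 : del J t * Real.exp (-8) ≤ del J t * us (Bl t) b :=
          mul_le_mul_of_nonneg_left hus (by unfold del; positivity)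
        have h6 : del J t * Real.exp (-8) = 4 ^ (b + 1) / ((b + 1).factorial : ℝ) := by
          unfold del
          rw [mul_comm, ← mul_assoc, ← Real.exp_add, ← hb]
          norm_num
        linarith
      have h2 := mul_le_mul_of_nonneg_left h1 hppos.le
      have h3 := mul_le_mul_of_nonneg_right hl huspos.le
      nlinarith

end Pool.Agent.Helper4.GR
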