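import Pool.Agent.Helper4.GR.Brun

/-!
# The sifted set of an interval is never small
-/

set_option autoImplicit false

open Finset

namespace Pool.Agent.Helper4.GR

theorem exp8_le : Real.exp 8 ≤ 2981 := by
  have h1 := Real.exp_one_lt_d9
  have h2 : Real.exp 8 = Real.exp 1 ^ 8 := by
    rw [← Real.exp_nat_mul]
    norm_num
  rw [h2]
  calc Real.exp 1 ^ 8 ≤ 2.7182818286 ^ 8 := pow_le_pow_left₀ (Real.exp_pos _).le h1.le 8
    _ ≤ 2981 := by norm_num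

theorem fact_aux (k : ℕ) :
    (4 : ℝ) ^ (17 + 2 * k) / ((17 + 2 * k).factorial : ℝ) ≤ 4 ^ 17 / ((17 : ℕ).factorial : ℝ) * (1 / 20) ^ k := by
  induction k with
  | zero => simp
  | succ k ih =>
    have h1 : (17 + 2 * (k + 1)).factorial = (19 + 2 * k) * ((18 + 2 * k) * (17 + 2 * k).factorial) := by
      have h2 : 17 + 2 * (k + 1) = (17 + 2 * k) + 1 + 1 := by ring
      rw [h2, Nat.factorial_succ, Nat.factorial_succ]
      ring
    have h2 : (4 : ℝ) ^ (17 + 2 * (k + 1)) = 16 * 4 ^ (17 + 2 * k) := by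
      have h3 : 17 + 2 * (k + 1) = (17 + 2 * k) + 2 := by ring
      rw [h3, pow_add]
      ring
    have h3 : (4 : ℝ) ^ (17 + 2 * (k + 1)) / ((17 + 2 * (k + 1)).factorial : ℝ) =
        (16 / ((19 + 2 * k) * (18 + 2 * k))) * (4 ^ (17 + 2 * k) / ((17 + 2 * k).factorial : ℝ)) := by
      rw [h1, h2]
      push_cast
      field_simp
    rw [h3, pow_succ]
    have h4 : (16 : ℝ) / ((19 + 2 * k) * (18 + 2 * k)) ≤ 1 / 20 := by
      rw [div_le_div_iff₀ (by positivity) (by norm_num)]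
      have : (0 : ℝ) ≤ k := Nat.cast_nonneg k
      nlinarith
    calc (16 / ((19 + 2 * (k : ℝ)) * (18 + 2 * k))) * (4 ^ (17 + 2 * k) / ((17 + 2 * k).factorial : ℝ))
        ≤ (1 / 20) * (4 ^ 17 / ((17 : ℕ).factorial : ℝ) * (1 / 20) ^ k) :=
          mul_le_mul h4 ih (by positivity) (by norm_num)
      _ = _ := by ring

theorem sum_del (J : ℕ) : ∑ i ∈ range (J + 1), del J i ≤ 1 / 2 := by
  have h1 : ∑ i ∈ range (J + 1), del J i =
      ∑ k ∈ range (J + 1), Real.exp 8 * (4 ^ (17 + 2 * k) / ((17 + 2 * k).factorial : ℝ)) := by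
    rw [← Finset.sum_range_reflect (fun k => Real.exp 8 * (4 ^ (17 + 2 * k) / ((17 + 2 * k).factorial : ℝ)))]
    refine Finset.sum_congr rfl fun i hi => ?_
    unfold del bb
    have h2 : 16 + 2 * (J - i) + 1 = 17 + 2 * (J + 1 - 1 - i) := by omega
    rw [h2]
  rw [h1, ← Finset.mul_sum]
  have h2 : ∑ k ∈ range (J + 1), (4 : ℝ) ^ (17 + 2 * k) / ((17 + 2 * k).factorial : ℝ) ≤
      ∑ k ∈ range (J + 1), 4 ^ 17 / ((17 : ℕ).factorial : ℝ) * (1 / 20) ^ k :=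
    Finset.sum_le_sum fun k _ => fact_aux k
  rw [← Finset.mul_sum] at h2
  have h3 : ∑ k ∈ range (J + 1), ((1 : ℝ) / 20) ^ k ≤ 20 / 19 := by
    rw [geom_sum_eq (by norm_num)]
    rw [div_le_iff_of_neg (by norm_num)]
    have : (0 : ℝ) ≤ (1 / 20) ^ (J + 1) := by positivity
    norm_num at *
  have h4 : (4 : ℝ) ^ 17 / ((17 : ℕ).factorial : ℝ) ≤ 5 / 100000 := by
    rw [show (17 : ℕ).factorial = 355687428096000 by decide]
    norm_num
  have h5 := exp8_le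
  have h6 : (0 : ℝ) ≤ 4 ^ 17 / ((17 : ℕ).factorial : ℝ) := by positivity
  have h7 : (0 : ℝ) ≤ ∑ k ∈ range (J + 1), ((1 : ℝ) / 20) ^ k := Finset.sum_nonneg fun _ _ => by positivity
  have h8 : 4 ^ 17 / ((17 : ℕ).factorial : ℝ) * ∑ k ∈ range (J + 1), ((1 : ℝ) / 20) ^ k ≤ 5 / 100000 * (20 / 19) :=
    mul_le_mul h4 h3 h7 (by norm_num)
  calc Real.exp 8 * ∑ k ∈ range (J + 1), (4 : ℝ) ^ (17 + 2 * k) / ((17 + 2 * k).factorial : ℝ)
      ≤ 2981 * (5 / 100000 * (20 / 19)) :=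
        mul_le_mul h5 (h2.trans h8) (Finset.sum_nonneg fun _ _ => by positivity) (by norm_num)
    _ ≤ 1 / 2 := by norm_num

theorem sum_exp (J : ℕ) : ∑ i ∈ range (J + 1), 2 ^ i * (bb J i + 1) + (21 + 2 * J) = 38 * 2 ^ J := by
  induction J with
  | zero =>
    unfold bb
    simp
  | succ J ih =>
    rw [Finset.sum_range_succ']
    have h1 : ∑ i ∈ range (J + 1), 2 ^ (i + 1) * (bb (J + 1) (i + 1) + 1) =
        2 * ∑ i ∈ range (J + 1), 2 ^ i * (bb J i + 1) := by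
      rw [Finset.mul_sum]
      refine Finset.sum_congr rfl fun i _ => ?_
      have h2 : bb (J + 1) (i + 1) = bb J i := by
        unfold bb
        omega
      rw [h2, pow_succ]
      ring
    rw [h1]
    have h2 : bb (J + 1) 0 = 18 + 2 * J := by
      unfold bb
      omega
    rw [h2, pow_succ 2 J]
    omega

theorem EE_le (J : ℕ) : EE J (J + 1) ≤ 2 ^ (38 * 2 ^ J) := by
  have h1 : EE J (J + 1) = 2 ^ (∑ i ∈ range (J + 1), 2 ^ i * (bb J i + 1)) := by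
    unfold EE
    rw [← Finset.prod_pow_eq_pow_sum]
    refine Finset.prod_congr rfl fun i _ => ?_
    have h2 : zz (i + 1) = 2 ^ 2 ^ i := rfl
    rw [h2]
    push_cast
    rw [← pow_mul]
  rw [h1]
  refine pow_le_pow_right₀ (by norm_num) ?_
  have := sum_exp J
  omega

/-- the primes up to `w` -/
def Pr (w : ℕ) : Finset ℕ := (Icc 1 w).filter Nat.Prime

theorem mem_Pr {w q : ℕ} : q ∈ Pr w ↔ q.Prime ∧ q ≤ w := by
  unfold Pr
  rw [mem_filter, mem_Icc]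
  exact ⟨fun h => ⟨h.2, h.1.2⟩, fun h => ⟨⟨h.1.one_le, h.2⟩, h.1⟩⟩

/-- the elements of `[1, y]` that avoid the class of `n` modulo every element of `P` -/
def Sf (n : ℕ) (P : Finset ℕ) (y : ℕ) : Finset ℕ := (Icc 1 y).filter fun r => ∀ q ∈ P, ¬ r ≡ n [MOD q]

theorem count_ge (J n y : ℕ) (hy : 2 ^ (128 * 2 ^ J) ≤ y) :
    Real.exp (-8) ^ (J + 1) / 4 * y ≤ ((Sf n (Pr (2 ^ 2 ^ J)) y).card : ℝ) := by
  classical
  obtain ⟨P, L, p, l, _, hL, _, hLI, _, hp, hl⟩ := state n y J (J + 1)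
  have h1 : ((Sf n (Pr (2 ^ 2 ^ J)) y).card : ℝ) = ∑ r ∈ Icc 1 y, Id n (J + 1) r := by
    unfold Sf
    rw [Finset.card_filter]
    push_cast
    refine Finset.sum_congr rfl fun r _ => ?_
    unfold Id
    have h2 : (∀ q ∈ Pr (2 ^ 2 ^ J), ¬ r ≡ n [MOD q]) ↔ ∀ q : ℕ, q.Prime → q ≤ zz (J + 1) → ¬ r ≡ n [MOD q] := by
      constructor
      · intro h q hq hqz
        exact h q (mem_Pr.2 ⟨hq, hqz⟩)
      · intro h q hq
        exact h q (mem_Pr.1 hq).1 (mem_Pr.1 hq).2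
    by_cases h3 : ∀ q ∈ Pr (2 ^ 2 ^ J), ¬ r ≡ n [MOD q]
    · rw [if_pos h3, if_pos (h2.1 h3)]
    · rw [if_neg h3, if_neg fun h => h3 (h2.2 h)]
  have h2 : ∑ r ∈ Icc 1 y, L r ≤ ∑ r ∈ Icc 1 y, Id n (J + 1) r := Finset.sum_le_sum fun r _ => hLI r
  have h3 := hL ∅ (fun q hq => absurd hq (Finset.notMem_empty q))
  have h4 : ∑ r ∈ Icc 1 y, L r * ind n ∅ r = ∑ r ∈ Icc 1 y, L r := by
    refine Finset.sum_congr rfl fun r _ => ?_
    unfold ind
    rw [if_pos fun q hq => absurd hq (Finset.notMem_empty q), mul_one]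
  rw [h4, Finset.prod_empty, Nat.cast_one, div_one] at h3
  have h5 := (abs_le.1 h3).1
  have hd := sum_del J
  have hppos : 0 < p := lt_of_lt_of_le (pow_pos (Real.exp_pos _) _) hp
  have h6 : Real.exp (-8) ^ (J + 1) * (1 / 2) ≤ l := by
    refine le_trans ?_ hl
    exact mul_le_mul hp (by linarith) (by norm_num) hppos.le
  have hy0 : (0 : ℝ) ≤ y := Nat.cast_nonneg y
  have h7 : Real.exp (-8) ^ (J + 1) * (1 / 2) * y ≤ l * y := mul_le_mul_of_nonneg_right h6 hy0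
  have hE := EE_le J
  have h8 : (((J + 1 : ℕ) : ℝ) + 1) * EE J (J + 1) ≤ Real.exp (-8) ^ (J + 1) / 4 * y := by
    have h9 : (((J + 1 : ℕ) : ℝ) + 1) ≤ 2 ^ (J + 1) := by
      have : J + 1 + 1 ≤ 2 ^ (J + 1) := Nat.lt_two_pow_self
      exact_mod_cast this
    have h10 : (1 : ℝ) / 2 ^ (12 * (J + 1)) ≤ Real.exp (-8) ^ (J + 1) := by
      rw [pow_mul, ← one_div_pow]
      refine pow_le_pow_left₀ (by positivity) ?_ _
      rw [Real.exp_neg, one_div]
      refine inv_anti₀ (Real.exp_pos _) ?_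
      have := exp8_le
      norm_num
      linarith
    have h11 : (2 : ℝ) ^ (128 * 2 ^ J) ≤ y := by exact_mod_cast hy
    have h12 : (2 : ℝ) ^ (J + 1) * 2 ^ (38 * 2 ^ J) * (4 * 2 ^ (12 * (J + 1))) ≤ 2 ^ (128 * 2 ^ J) := by
      have h13 : (4 : ℝ) = 2 ^ 2 := by norm_num
      rw [h13, ← pow_add, ← pow_add, ← pow_add]
      refine pow_le_pow_right₀ (by norm_num) ?_
      have h14 : J + 1 ≤ 2 ^ J := Nat.lt_two_pow_self
      omega
    calc (((J + 1 : ℕ) : ℝ) + 1) * EE J (J + 1) ≤ 2 ^ (J + 1) * 2 ^ (38 * 2 ^ J) :=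
          mul_le_mul h9 hE (EE_pos _ _).le (by positivity)
      _ ≤ 2 ^ (128 * 2 ^ J) / (4 * 2 ^ (12 * (J + 1))) := by
          rw [le_div_iff₀ (by positivity)]
          exact h12
      _ ≤ y / (4 * 2 ^ (12 * (J + 1))) := by gcongr
      _ = (1 / 2 ^ (12 * (J + 1))) / 4 * y := by
          field_simp
      _ ≤ Real.exp (-8) ^ (J + 1) / 4 * y := by gcongr
  rw [h1]
  push_cast at h5 h8 ⊢
  linarith

end Pool.Agent.Helper4.GR
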