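import Pool.Agent.Helper4.GR.Period
import Pool.Prelude.Def_F_6dc077f7

/-!
# The exceptional set
-/

set_option autoImplicit false

open Finset

namespace Pool.Agent.Helper4.GR

open N44819c39

theorem bad_of_exc {y n : ℕ} (hn : 5 * y < n) (hexc : ∀ m ∈ terms n, m.Prime) : bad y n := by
  intro p hp r hr hrp
  rw [mem_PI] at hp
  have h1 := mem_filter.1 hr
  have h2 := mem_Icc.1 h1.1
  have h3 : p ∣ n - r := (Nat.modEq_iff_dvd' (by omega)).1 hrp
  have h4 : n - r ∈ terms n := by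
    unfold terms
    rw [mem_filter, mem_Ioo]
    refine ⟨⟨by omega, by omega⟩, fun q hq => ?_⟩
    have h5 := Nat.mem_primeFactors.1 hq
    by_contra hc
    push Not at hc
    have h6 : n - (n - r) = r := by omega
    rw [h6] at hc
    refine h1.2 q (mem_Pr.2 ⟨h5.1, by omega⟩) ?_
    exact (Nat.modEq_iff_dvd' (by omega)).2 h5.2.1
  have h5 := (Nat.prime_dvd_prime_iff_eq hp.1 (hexc _ h4)).1 h3
  omega

theorem bad_periodic (y n : ℕ) : bad y (MM y + n) ↔ bad y n := by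
  have h1 : ∀ q ∈ Pr y, MM y + n ≡ n [MOD q] := by
    intro q hq
    have h2 : q ∣ MM y := Finset.dvd_prod_of_mem _ (mem_Pr.2 ⟨(mem_Pr.1 hq).1, by
      have := (mem_Pr.1 hq).2
      omega⟩)
    have h3 : MM y ≡ 0 [MOD q] := (Nat.modEq_zero_iff_dvd).2 h2
    simpa using h3.add_right n
  have h2 : ∀ p ∈ PI y (4 * y), (MM y + n) % p = n % p := by
    intro p hp
    have h3 : p ∣ MM y := Finset.dvd_prod_of_mem _ (mem_Pr.2 ⟨(mem_PI.1 hp).1, (mem_PI.1 hp).2.2⟩)
    rw [Nat.add_mod, Nat.mod_eq_zero_of_dvd h3, Nat.zero_add, Nat.mod_mod]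
  unfold bad
  rw [Sf_congr y h1]
  constructor
  · intro h p hp r hr
    rw [← h2 p hp]
    exact h p hp r hr
  · intro h p hp r hr
    rw [h2 p hp]
    exact h p hp r hr

theorem count_periodic (y K : ℕ) : ((range (MM y * K)).filter fun n => bad y n).card =
    K * ((range (MM y)).filter fun n => bad y n).card := by
  have hper : ∀ k n : ℕ, bad y (MM y * k + n) ↔ bad y n := by
    intro k n
    induction k with
    | zero => simp
    | succ k ih =>
      have h1 : MM y * (k + 1) + n = MM y + (MM y * k + n) := by ring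
      rw [h1, bad_periodic, ih]
  induction K with
  | zero => simp
  | succ K ih =>
    have h1 : ∀ N : ℕ, ((range N).filter fun n => bad y n).card = ∑ n ∈ range N, if bad y n then 1 else 0 := by
      intro N
      rw [Finset.card_filter]
    rw [h1, Nat.mul_succ, Finset.sum_range_add, ← h1, ih, h1]
    simp_rw [hper]
    ring

theorem count_le (y x : ℕ) (hx : MM y ≤ x) :
    (((Icc 1 x).filter fun n => ∀ m ∈ terms n, m.Prime).card : ℝ) ≤
      5 * y + 3 * x * ((((range (MM y)).filter fun n => bad y n).card : ℝ) / MM y) := by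
  have hM := MM_pos y
  set K : ℕ := x / MM y + 1 with hK
  have h1 : x < MM y * K := by
    rw [hK]
    have := Nat.lt_mul_div_succ x hM
    exact this
  have h2 : ((Icc 1 x).filter fun n => ∀ m ∈ terms n, m.Prime) ⊆
      (Icc 1 (5 * y)) ∪ (range (MM y * K)).filter fun n => bad y n := by
    intro n hn
    rw [mem_filter, mem_Icc] at hn
    rw [mem_union, mem_Icc, mem_filter, mem_range]
    by_cases h3 : n ≤ 5 * y
    · exact Or.inl ⟨hn.1.1, h3⟩
    · exact Or.inr ⟨by omega, bad_of_exc (by omega) hn.2⟩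
  have h3 := (Finset.card_le_card h2).trans (Finset.card_union_le _ _)
  rw [count_periodic, Nat.card_Icc] at h3
  have h4 : (((Icc 1 x).filter fun n => ∀ m ∈ terms n, m.Prime).card : ℝ) ≤
      5 * y + K * (((range (MM y)).filter fun n => bad y n).card : ℝ) := by
    have h5 : ((Icc 1 x).filter fun n => ∀ m ∈ terms n, m.Prime).card ≤
        5 * y + K * ((range (MM y)).filter fun n => bad y n).card := by omega
    exact_mod_cast h5
  refine h4.trans ?_
  have hMr : (0 : ℝ) < MM y := by exact_mod_cast hM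
  have h5 : (K : ℝ) ≤ 3 * x / MM y := by
    rw [hK, le_div_iff₀ hMr]
    push_cast
    have h6 : ((x / MM y : ℕ) : ℝ) ≤ x / MM y := Nat.cast_div_le
    have h7 : ((x / MM y : ℕ) : ℝ) * MM y ≤ x := by
      rw [← le_div_iff₀ hMr]
      exact h6
    have h8 : (MM y : ℝ) ≤ x := by exact_mod_cast hx
    nlinarith
  have h6 := mul_le_mul_of_nonneg_right h5
    (Nat.cast_nonneg (α := ℝ) ((range (MM y)).filter fun n => bad y n).card)
  have h7 : 3 * (x : ℝ) / MM y * (((range (MM y)).filter fun n => bad y n).card : ℝ) =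
      3 * x * ((((range (MM y)).filter fun n => bad y n).card : ℝ) / MM y) := by ring
  linarith

/-- the parameter `y` -/
def yy (J : ℕ) : ℕ := 2 ^ (128 * 2 ^ J)

theorem exp_aux {J : ℕ} (hJ : 9 ≤ J) :
    (2 : ℝ) ^ (2 ^ (J - 2) + 1) ≤ 2 ^ 2 ^ J * Real.exp (-84) * Real.exp (-8) ^ (J + 1) / 16 := by
  have h1 : (1 : ℝ) / 2 ^ 126 ≤ Real.exp (-84) := by
    rw [Real.exp_neg, one_div]
    refine inv_anti₀ (Real.exp_pos _) ?_
    have h2 : Real.exp 84 = Real.exp 1 ^ 84 := by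
      rw [← Real.exp_nat_mul]
      norm_num
    rw [h2]
    calc Real.exp 1 ^ 84 ≤ 2.7182818286 ^ 84 := pow_le_pow_left₀ (Real.exp_pos _).le Real.exp_one_lt_d9.le 84
      _ ≤ 2 ^ 126 := by norm_num
  have h2 : (1 : ℝ) / 2 ^ (12 * (J + 1)) ≤ Real.exp (-8) ^ (J + 1) := by
    rw [pow_mul, ← one_div_pow]
    refine pow_le_pow_left₀ (by positivity) ?_ _
    rw [Real.exp_neg, one_div]
    refine inv_anti₀ (Real.exp_pos _) ?_
    have := exp8_le
    norm_num
    linarith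
  have h3 : 3 * 2 ^ (J - 2) ≥ 126 + 12 * (J + 1) + 5 := by
    obtain ⟨k, rfl⟩ : ∃ k, J = 9 + k := ⟨J - 9, by omega⟩
    have h4 : 9 + k - 2 = 7 + k := by omega
    rw [h4, pow_add]
    have h5 : k + 1 ≤ 2 ^ k := Nat.lt_two_pow_self
    norm_num
    omega
  have h4 : 2 ^ J = 4 * 2 ^ (J - 2) := by
    have h5 : J = 2 + (J - 2) := by omega
    conv_lhs => rw [h5, pow_add]
    norm_num
  calc (2 : ℝ) ^ (2 ^ (J - 2) + 1) = 2 ^ (2 ^ (J - 2) + 1 + 126 + 12 * (J + 1) + 4) / 2 ^ 126 / 2 ^ (12 * (J + 1)) / 16 := by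
        have h16 : (16 : ℝ) = 2 ^ 4 := by norm_num
        rw [h16, div_div, div_div, ← pow_add, ← pow_add, eq_div_iff (by positivity), ← pow_add]
        congr 1
        omega
    _ ≤ 2 ^ 2 ^ J / 2 ^ 126 / 2 ^ (12 * (J + 1)) / 16 := by
        gcongr
        · norm_num
        · rw [h4]
          omega
    _ = 2 ^ 2 ^ J * (1 / 2 ^ 126) * (1 / 2 ^ (12 * (J + 1))) / 16 := by
        field_simp
    _ ≤ 2 ^ 2 ^ J * Real.exp (-84) * Real.exp (-8) ^ (J + 1) / 16 := by
        gcongr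

theorem count_J {J x : ℕ} (hJ : 9 ≤ J)
    (hc : (2 : ℝ) ^ 2 ^ J ≤ ((PI (yy J) (4 * yy J)).card : ℝ)) (hx : 4 ^ (4 * yy J) ≤ x)
    (hx' : x < 4 ^ (4 * yy (J + 1))) :
    (((Icc 1 x).filter fun n => ∀ m ∈ terms n, m.Prime).card : ℝ) ≤
      4 * x * Real.exp (-(Real.log x) ^ ((1 : ℝ) / 1024)) := by
  have hMM := (MM_le (yy J)).trans hx
  have h1 := count_le (yy J) x hMM
  have h2 := card_bad J hc
  have hMr : (0 : ℝ) < MM (yy J) := by exact_mod_cast MM_pos (yy J)
  have h3 : (((range (MM (yy J))).filter fun n => bad (yy J) n).card : ℝ) / MM (yy J) ≤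
      Real.exp (-(2 : ℝ) ^ (2 ^ (J - 2) + 1)) := by
    rw [div_le_iff₀ hMr, mul_comm]
    refine h2.trans (mul_le_mul_of_nonneg_left (Real.exp_le_exp.2 ?_) hMr.le)
    have := exp_aux hJ
    linarith
  -- the size of `x`
  have hJ2 : 2 ^ J = 4 * 2 ^ (J - 2) := by
    have h5 : J = 2 + (J - 2) := by omega
    conv_lhs => rw [h5, pow_add]
    norm_num
  have hx1 : (1 : ℝ) ≤ x := by
    have : 1 ≤ x := le_trans Nat.one_le_two_pow (le_trans (Nat.pow_le_pow_left (by norm_num) _) hx)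
    exact_mod_cast this
  have hlog : Real.log x ≤ ((2 : ℝ) ^ (2 ^ (J - 2) + 1)) ^ 1024 := by
    have h4 : (x : ℝ) ≤ 4 ^ (4 * yy (J + 1)) := by exact_mod_cast hx'.le
    have h5 : Real.log x ≤ Real.log ((4 : ℝ) ^ (4 * yy (J + 1))) := Real.log_le_log (by linarith) h4
    rw [Real.log_pow] at h5
    have h6 : Real.log 4 ≤ 2 := by
      have h7 : (4 : ℝ) = 2 ^ 2 := by norm_num
      rw [h7, Real.log_pow]
      have := Real.log_two_lt_d9
      push_cast
      linarith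
    have h7 : ((4 * yy (J + 1) : ℕ) : ℝ) * Real.log 4 ≤ ((4 * yy (J + 1) : ℕ) : ℝ) * 2 :=
      mul_le_mul_of_nonneg_left h6 (Nat.cast_nonneg _)
    refine (h5.trans h7).trans ?_
    have h8 : 4 * yy (J + 1) * 2 ≤ (2 ^ (2 ^ (J - 2) + 1)) ^ 1024 := by
      unfold yy
      rw [← pow_mul]
      calc 4 * 2 ^ (128 * 2 ^ (J + 1)) * 2 = 2 ^ (128 * 2 ^ (J + 1) + 3) := by
            rw [pow_add]
            ring
        _ ≤ _ := by
            refine Nat.pow_le_pow_right (by norm_num) ?_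
            rw [pow_succ, hJ2]
            omega
    exact_mod_cast h8
  have hlog0 : 0 ≤ Real.log x := Real.log_nonneg hx1
  have h4 : (Real.log x) ^ ((1 : ℝ) / 1024) ≤ 2 ^ (2 ^ (J - 2) + 1) := by
    have h5 := Real.rpow_le_rpow hlog0 hlog (show (0 : ℝ) ≤ 1 / 1024 by norm_num)
    refine h5.trans (le_of_eq ?_)
    have h6 := Real.pow_rpow_inv_natCast (x := (2 : ℝ) ^ (2 ^ (J - 2) + 1)) (by positivity) (n := 1024) (by norm_num)
    rw [one_div]
    exact_mod_cast h6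
  have h5 : Real.exp (-(2 : ℝ) ^ (2 ^ (J - 2) + 1)) ≤ Real.exp (-(Real.log x) ^ ((1 : ℝ) / 1024)) :=
    Real.exp_le_exp.2 (by linarith)
  have h6 : 5 * (yy J : ℝ) ≤ x * Real.exp (-(2 : ℝ) ^ (2 ^ (J - 2) + 1)) := by
    have h7 : (2 : ℝ) ^ (2 ^ (J - 2) + 1) ≤ yy J := by
      have h8 : 2 ^ (2 ^ (J - 2) + 1) ≤ yy J := by
        unfold yy
        refine Nat.pow_le_pow_right (by norm_num) ?_
        have : 1 ≤ 2 ^ (J - 2) := Nat.one_le_two_pow
        rw [hJ2]
        omega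
      exact_mod_cast h8
    have h8 : Real.exp (yy J : ℝ) ≤ 4 ^ yy J := by
      have h9 : Real.exp (yy J : ℝ) = Real.exp 1 ^ yy J := by
        rw [← Real.exp_nat_mul, mul_one]
      rw [h9]
      refine pow_le_pow_left₀ (Real.exp_pos _).le ?_ _
      have := Real.exp_one_lt_d9
      linarith
    have h9 : (4 : ℝ) ^ (4 * yy J) ≤ x := by exact_mod_cast hx
    have h10 : 5 * (yy J : ℝ) ≤ 4 ^ (3 * yy J) := by
      have h11 : 5 * yy J ≤ 4 ^ (3 * yy J) := by
        have h12 : 3 * yy J < 4 ^ (3 * yy J) := Nat.lt_pow_self (by norm_num)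
        have h13 : 1 ≤ yy J := Nat.one_le_two_pow
        have h14 : 4 ^ (3 * yy J) = 4 ^ (yy J) * 4 ^ (2 * yy J) := by
          rw [← pow_add]
          congr 1
          ring
        have h15 : yy J < 4 ^ (yy J) := Nat.lt_pow_self (by norm_num)
        have h16 : 4 ^ 2 ≤ 4 ^ (2 * yy J) := Nat.pow_le_pow_right (by norm_num) (by omega)
        rw [h14]
        nlinarith
      exact_mod_cast h11
    rw [Real.exp_neg, ← div_eq_mul_inv, le_div_iff₀ (Real.exp_pos _)]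
    calc 5 * (yy J : ℝ) * Real.exp (2 ^ (2 ^ (J - 2) + 1)) ≤ 4 ^ (3 * yy J) * 4 ^ yy J := by
          refine mul_le_mul h10 ?_ (Real.exp_pos _).le (by positivity)
          exact (Real.exp_le_exp.2 h7).trans h8
      _ = 4 ^ (4 * yy J) := by
          rw [← pow_add]
          congr 1
          ring
      _ ≤ x := h9
  have hx0 : (0 : ℝ) ≤ x := by linarith
  have h7 := mul_le_mul_of_nonneg_left h3 (show (0 : ℝ) ≤ 3 * x by linarith)
  have h8 := mul_le_mul_of_nonneg_left h5 hx0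
  linarith

theorem large_J : ∃ J₀ : ℕ, 9 ≤ J₀ ∧ ∀ J, J₀ ≤ J → (2 : ℝ) ^ 2 ^ J ≤ ((PI (yy J) (4 * yy J)).card : ℝ) := by
  obtain ⟨c, hc, h⟩ := Pool.Agent.Helper95.AS.s_primes
  obtain ⟨k, hk⟩ := exists_nat_gt (1 / c)
  refine ⟨max 9 k, le_max_left _ _, fun J hJ => ?_⟩
  have hJ9 : 9 ≤ J := (le_max_left _ _).trans hJ
  have hJk : k ≤ J := (le_max_right _ _).trans hJ
  have h1 := h (yy J) (by
    unfold yy
    calc 2 = 2 ^ 1 := rfl
      _ ≤ _ := Nat.pow_le_pow_right (by norm_num) (by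
        have : 1 ≤ 2 ^ J := Nat.one_le_two_pow
        omega))
  refine le_trans ?_ h1
  have hL : 1 ≤ 2 ^ J := Nat.one_le_two_pow
  have h2 : Real.log (yy J) ≤ 2 ^ (8 * 2 ^ J) := by
    unfold yy
    push_cast
    rw [Real.log_pow]
    have h3 := Real.log_two_lt_d9
    have h4 : (0 : ℝ) ≤ ((128 * 2 ^ J : ℕ) : ℝ) := Nat.cast_nonneg _
    have h5 : ((128 * 2 ^ J : ℕ) : ℝ) * Real.log 2 ≤ ((128 * 2 ^ J : ℕ) : ℝ) * 1 :=
      mul_le_mul_of_nonneg_left (by linarith) h4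
    refine h5.trans ?_
    rw [mul_one]
    have h6 : 128 * 2 ^ J ≤ 2 ^ (8 * 2 ^ J) := by
      have h7 : 2 ^ J < 2 ^ 2 ^ J := Nat.pow_lt_pow_right (by norm_num) Nat.lt_two_pow_self
      calc 128 * 2 ^ J ≤ 2 ^ 7 * 2 ^ 2 ^ J := Nat.mul_le_mul (by norm_num) h7.le
        _ = 2 ^ (7 + 2 ^ J) := by rw [pow_add]
        _ ≤ _ := Nat.pow_le_pow_right (by norm_num) (by omega)
    exact_mod_cast h6
  have hlogpos : 0 < Real.log (yy J) := by
    apply Real.log_pos
    unfold yy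
    have : 1 < 2 ^ (128 * 2 ^ J) := Nat.one_lt_two_pow (by omega)
    exact_mod_cast this
  rw [le_div_iff₀ hlogpos]
  have h3 : (1 : ℝ) / c ≤ 2 ^ 2 ^ J := by
    have h4 : (k : ℝ) ≤ 2 ^ 2 ^ J := by
      have h5 : k ≤ 2 ^ 2 ^ J := by
        calc k ≤ J := hJk
          _ ≤ 2 ^ J := Nat.lt_two_pow_self.le
          _ ≤ _ := Nat.lt_two_pow_self.le
      exact_mod_cast h5
    linarith
  have h4 : 1 ≤ c * 2 ^ 2 ^ J := by
    rw [div_le_iff₀ hc] at h3
    linarith
  have h5 : (2 : ℝ) ^ 2 ^ J * 2 ^ (8 * 2 ^ J) * 2 ^ 2 ^ J ≤ yy J := by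
    unfold yy
    push_cast
    rw [← pow_add, ← pow_add]
    exact pow_le_pow_right₀ (by norm_num) (by omega)
  calc (2 : ℝ) ^ 2 ^ J * Real.log (yy J) ≤ 2 ^ 2 ^ J * 2 ^ (8 * 2 ^ J) := by gcongr
    _ ≤ 2 ^ 2 ^ J * 2 ^ (8 * 2 ^ J) * (c * 2 ^ 2 ^ J) := by
        refine le_mul_of_one_le_right (by positivity) h4
    _ = c * (2 ^ 2 ^ J * 2 ^ (8 * 2 ^ J) * 2 ^ 2 ^ J) := by ring
    _ ≤ c * yy J := by gcongr

theorem main : ∃ C : ℝ, ∀ x : ℕ, 1 ≤ x →
    (((Icc 1 x).filter fun n => ∀ m ∈ terms n, m.Prime).card : ℝ) ≤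
      C * x * Real.exp (-(Real.log x) ^ ((1 : ℝ) / 1024)) := by
  obtain ⟨J₀, hJ₀, hJ⟩ := large_J
  set X₀ : ℕ := 4 ^ (4 * yy J₀) with hX₀
  set C : ℝ := max 4 (Real.exp ((Real.log X₀) ^ ((1 : ℝ) / 1024))) with hC
  refine ⟨C, fun x hx => ?_⟩
  have hx1 : (1 : ℝ) ≤ x := by exact_mod_cast hx
  rcases lt_or_ge x X₀ with h | h
  · have h1 : (((Icc 1 x).filter fun n => ∀ m ∈ terms n, m.Prime).card : ℝ) ≤ x := by
      have h2 := Finset.card_filter_le (Icc 1 x) fun n => ∀ m ∈ terms n, m.Prime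
      rw [Nat.card_Icc] at h2
      have h3 : ((Icc 1 x).filter fun n => ∀ m ∈ terms n, m.Prime).card ≤ x := by omega
      exact_mod_cast h3
    have h2 : (Real.log x) ^ ((1 : ℝ) / 1024) ≤ (Real.log X₀) ^ ((1 : ℝ) / 1024) := by
      refine Real.rpow_le_rpow (Real.log_nonneg hx1) (Real.log_le_log (by linarith) ?_) (by norm_num)
      exact_mod_cast h.le
    have h3 : 1 ≤ C * Real.exp (-(Real.log x) ^ ((1 : ℝ) / 1024)) := by
      calc (1 : ℝ) = Real.exp ((Real.log X₀) ^ ((1 : ℝ) / 1024)) * Real.exp (-(Real.log X₀) ^ ((1 : ℝ) / 1024)) := by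
            rw [← Real.exp_add]
            simp
        _ ≤ C * Real.exp (-(Real.log x) ^ ((1 : ℝ) / 1024)) := by
            refine mul_le_mul (le_max_right _ _) (Real.exp_le_exp.2 (by linarith)) (Real.exp_pos _).le ?_
            exact le_trans (by norm_num) (le_max_left _ _)
    have h4 := mul_le_mul_of_nonneg_left h3 (show (0 : ℝ) ≤ x by linarith)
    have h5 : (x : ℝ) * (C * Real.exp (-(Real.log x) ^ ((1 : ℝ) / 1024))) =
        C * x * Real.exp (-(Real.log x) ^ ((1 : ℝ) / 1024)) := by ring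
    linarith
  · -- the largest `J` with `4 ^ (4 * yy J) ≤ x`
    have hyy : ∀ J, J ≤ yy J := by
      intro J
      unfold yy
      calc J ≤ 2 ^ J := Nat.lt_two_pow_self.le
        _ ≤ 128 * 2 ^ J := by omega
        _ ≤ _ := Nat.lt_two_pow_self.le
    have hex : ∃ J, x < 4 ^ (4 * yy J) := by
      refine ⟨x, ?_⟩
      calc x < 4 ^ x := Nat.lt_pow_self (by norm_num)
        _ ≤ _ := Nat.pow_le_pow_right (by norm_num) (by
          have := hyy x
          omega)
    classical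
    set J₁ := Nat.find hex with hJ₁
    have h1 : x < 4 ^ (4 * yy J₁) := Nat.find_spec hex
    have hmono : ∀ a b : ℕ, a ≤ b → 4 ^ (4 * yy a) ≤ 4 ^ (4 * yy b) := by
      intro a b hab
      refine Nat.pow_le_pow_right (by norm_num) ?_
      refine Nat.mul_le_mul_left _ ?_
      unfold yy
      refine Nat.pow_le_pow_right (by norm_num) (Nat.mul_le_mul_left _ (Nat.pow_le_pow_right (by norm_num) hab))
    have h2 : J₀ < J₁ := by
      by_contra hcon
      push Not at hcon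
      have := hmono _ _ hcon
      omega
    obtain ⟨J, hJJ⟩ : ∃ J, J₁ = J + 1 := ⟨J₁ - 1, by omega⟩
    have h3 : 4 ^ (4 * yy J) ≤ x := by
      by_contra hcon
      push Not at hcon
      exact Nat.find_min hex (m := J) (by omega) hcon
    rw [hJJ] at h1
    have h4 := count_J (by omega) (hJ J (by omega)) h3 h1
    refine h4.trans ?_
    have h5 : (4 : ℝ) ≤ C := le_max_left _ _
    gcongr

end Pool.Agent.Helper4.GR
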