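import Pool.Agent.Helper4.GR.Prob
import Pool.Agent.Helper95.AS.primes

/-!
# The proportion of the bad residues
-/

set_option autoImplicit false

open Finset

namespace Pool.Agent.Helper4.GR

open Pool.Agent.Helper71.AS.Rough (exp_neg_le)

/-- the primes in `(a, b]` -/
def PI (a b : ℕ) : Finset ℕ := (Ioc a b).filter Nat.Prime

theorem mem_PI {a b q : ℕ} : q ∈ PI a b ↔ q.Prime ∧ a < q ∧ q ≤ b := by
  unfold PI
  rw [mem_filter, mem_Ioc]
  tauto

theorem sum_PI {a : ℕ} (ha : 1 ≤ a) (k : ℕ) : ∑ p ∈ PI (2 ^ a) (2 ^ (2 ^ k * a)), (1 : ℝ) / p ≤ 4 * k := by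
  induction k with
  | zero => simp [PI]
  | succ k ih =>
    have hpos : 1 ≤ 2 ^ k * a := Nat.mul_pos (by positivity) ha
    have h1 : PI (2 ^ a) (2 ^ (2 ^ (k + 1) * a)) ⊆
        PI (2 ^ a) (2 ^ (2 ^ k * a)) ∪ PI (2 ^ (2 ^ k * a)) (2 ^ (2 * (2 ^ k * a))) := by
      intro q hq
      rw [mem_PI] at hq
      rw [mem_union, mem_PI, mem_PI]
      have h2 : 2 ^ (k + 1) * a = 2 * (2 ^ k * a) := by ring
      rw [h2] at hq
      by_cases h3 : q ≤ 2 ^ (2 ^ k * a)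
      · exact Or.inl ⟨hq.1, hq.2.1, h3⟩
      · exact Or.inr ⟨hq.1, by omega, hq.2.2⟩
    have h2 : ∑ p ∈ PI (2 ^ a) (2 ^ (2 ^ (k + 1) * a)), (1 : ℝ) / p ≤
        ∑ p ∈ PI (2 ^ a) (2 ^ (2 ^ k * a)), (1 : ℝ) / p +
        ∑ p ∈ PI (2 ^ (2 ^ k * a)) (2 ^ (2 * (2 ^ k * a))), (1 : ℝ) / p := by
      refine (Finset.sum_le_sum_of_subset_of_nonneg h1 fun _ _ _ => by positivity).trans ?_
      have h3 := Finset.sum_union_inter (s₁ := PI (2 ^ a) (2 ^ (2 ^ k * a)))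
        (s₂ := PI (2 ^ (2 ^ k * a)) (2 ^ (2 * (2 ^ k * a)))) (f := fun p : ℕ => (1 : ℝ) / p)
      have h4 : 0 ≤ ∑ p ∈ PI (2 ^ a) (2 ^ (2 ^ k * a)) ∩ PI (2 ^ (2 ^ k * a)) (2 ^ (2 * (2 ^ k * a))), (1 : ℝ) / p :=
        Finset.sum_nonneg fun _ _ => by positivity
      linarith
    have h3 : ∑ p ∈ PI (2 ^ (2 ^ k * a)) (2 ^ (2 * (2 ^ k * a))), (1 : ℝ) / p ≤ 4 := sum_double hpos
    push_cast
    linarith

/-- the product of the primes up to `4 y` -/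
def MM (y : ℕ) : ℕ := ∏ q ∈ Pr (4 * y), q

theorem MM_le (y : ℕ) : MM y ≤ 4 ^ (4 * y) := by
  refine le_trans ?_ (primorial_le_four_pow (4 * y))
  unfold MM primorial
  refine Finset.prod_le_prod_of_subset_of_one_le' ?_ fun p hp _ => (mem_filter.1 hp).2.one_le
  intro q hq
  rw [mem_Pr] at hq
  rw [mem_filter, mem_range]
  exact ⟨by omega, hq.1⟩

theorem MM_pos (y : ℕ) : 0 < MM y := Finset.prod_pos fun q hq => (mem_Pr.1 hq).1.pos

/-- the bad residues -/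
def bad (y n : ℕ) : Prop := ∀ p ∈ PI y (4 * y), ∀ r ∈ Sf n (Pr y) y, ¬ r % p = n % p

instance (y n : ℕ) : Decidable (bad y n) := by
  unfold bad
  infer_instance

theorem Pr_union {a b : ℕ} (h : a ≤ b) : Pr a ∪ PI a b = Pr b := by
  ext q
  rw [mem_union, mem_Pr, mem_PI, mem_Pr]
  constructor
  · rintro (⟨h1, h2⟩ | ⟨h1, h2, h3⟩)
    · exact ⟨h1, h2.trans h⟩
    · exact ⟨h1, h3⟩
  · rintro ⟨h1, h2⟩
    by_cases h3 : q ≤ a
    · exact Or.inl ⟨h1, h3⟩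
    · exact Or.inr ⟨h1, by omega, h2⟩

theorem Pr_disj (a b : ℕ) : Disjoint (Pr a) (PI a b) := by
  rw [Finset.disjoint_left]
  intro q hq hq'
  have h1 := (mem_Pr.1 hq).2
  have h2 := (mem_PI.1 hq').2.1
  omega

theorem prod_Pr {a b : ℕ} (h : a ≤ b) : (∏ q ∈ Pr a, q) * ∏ q ∈ PI a b, q = ∏ q ∈ Pr b, q := by
  rw [← Pr_union h, Finset.prod_union (Pr_disj a b)]

theorem coprime_Pr {a q : ℕ} (hq : q.Prime) (h : a < q) : (∏ p ∈ Pr a, p).Coprime q := by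
  refine Nat.Coprime.prod_left fun p hp => ?_
  have h1 := mem_Pr.1 hp
  exact (Nat.coprime_primes h1.1 hq).2 (by omega)

theorem card_bad (J : ℕ) (hc : (2 : ℝ) ^ 2 ^ J ≤ ((PI (2 ^ (128 * 2 ^ J)) (4 * 2 ^ (128 * 2 ^ J))).card : ℝ)) :
    (((range (MM (2 ^ (128 * 2 ^ J)))).filter fun n => bad (2 ^ (128 * 2 ^ J)) n).card : ℝ) ≤
      MM (2 ^ (128 * 2 ^ J)) *
        Real.exp (-(2 ^ 2 ^ J * Real.exp (-84) * Real.exp (-8) ^ (J + 1) / 16)) := by
  set w : ℕ := 2 ^ 2 ^ J with hw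
  set y : ℕ := 2 ^ (128 * 2 ^ J) with hy
  have hJ : 1 ≤ 2 ^ J := Nat.one_le_two_pow
  have hw2 : 2 ≤ w := by
    calc 2 = 2 ^ 1 := rfl
      _ ≤ 2 ^ 2 ^ J := Nat.pow_le_pow_right (by norm_num) hJ
  have hwy : w ≤ y := Nat.pow_le_pow_right (by norm_num) (by omega)
  have hypos : (0 : ℝ) < y := by exact_mod_cast (show 0 < y by omega)
  have hwpos : (0 : ℝ) < w := by exact_mod_cast (show 0 < w by omega)
  have hPdvd : ∀ (a : ℕ), ∀ p ∈ Pr a, p ∣ ∏ q ∈ Pr a, q := fun a p hp => Finset.dvd_prod_of_mem _ hp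
  have hPpos : ∀ a : ℕ, 0 < ∏ q ∈ Pr a, q := fun a => Finset.prod_pos fun q hq => (mem_Pr.1 hq).1.pos
  -- the large primes
  have h1 := large_all (hPdvd y) (hPpos y) (y := y) (PI y (4 * y))
    (fun q hq => ⟨(mem_PI.1 hq).1, coprime_Pr (mem_PI.1 hq).1 (mem_PI.1 hq).2.1, (mem_PI.1 hq).2.1⟩) 0
  rw [prod_Pr (show y ≤ 4 * y by omega)] at h1
  simp only [zero_mul, neg_zero, Real.exp_zero, mul_one, zero_add] at h1
  rw [Finset.sum_boole] at h1
  have h2 : (((range (MM y)).filter fun n => bad y n).card : ℝ) ≤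
      ((∏ p ∈ PI y (4 * y), p : ℕ) : ℝ) * ∑ a ∈ range (∏ q ∈ Pr y, q),
        Real.exp (-((∑ q ∈ PI y (4 * y), 1 / (q : ℝ)) * (Sf a (Pr y) y).card)) := h1
  -- the sum of the reciprocals of the large primes
  set l0 : ℝ := w / (4 * y) with hl0
  have hl0pos : 0 ≤ l0 := by positivity
  have h3 : l0 ≤ ∑ q ∈ PI y (4 * y), 1 / (q : ℝ) := by
    have h4 : ∑ q ∈ PI y (4 * y), 1 / (4 * (y : ℝ)) ≤ ∑ q ∈ PI y (4 * y), 1 / (q : ℝ) := by
      refine Finset.sum_le_sum fun q hq => ?_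
      have h5 := mem_PI.1 hq
      refine one_div_le_one_div_of_le (by exact_mod_cast h5.1.pos) (by exact_mod_cast h5.2.2)
    rw [Finset.sum_const, nsmul_eq_mul] at h4
    refine le_trans ?_ h4
    rw [hl0, mul_one_div]
    have h5 : (w : ℝ) = 2 ^ 2 ^ J := by
      rw [hw]
      push_cast
      rfl
    rw [h5]
    gcongr
  have h4 : ∑ a ∈ range (∏ q ∈ Pr y, q), Real.exp (-((∑ q ∈ PI y (4 * y), 1 / (q : ℝ)) * (Sf a (Pr y) y).card)) ≤
      ∑ a ∈ range (∏ q ∈ Pr y, q), Real.exp (-(l0 * (Sf a (Pr y) y).card)) := by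
    refine Finset.sum_le_sum fun a _ => Real.exp_le_exp.2 ?_
    have := mul_le_mul_of_nonneg_right h3 (Nat.cast_nonneg (α := ℝ) (Sf a (Pr y) y).card)
    linarith
  -- the medium primes
  have h5 := med_all (hPdvd w) (hPpos w) (y := y) (l0 := l0) (PI w y)
    (fun q hq => by
      have h6 := mem_PI.1 hq
      refine ⟨h6.1, coprime_Pr h6.1 h6.2.1, h6.2.2, by omega, ?_⟩
      have hq' : (w : ℝ) ≤ q := by exact_mod_cast h6.2.1.le
      have hqpos : (0 : ℝ) < q := by exact_mod_cast h6.1.pos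
      rw [hl0]
      have h7 : (w : ℝ) / (4 * y) * (2 * y / q) = (1 / 2) * (w / q) := by
        field_simp
        ring
      rw [h7]
      have h8 : (w : ℝ) / q ≤ 1 := by
        rw [div_le_one hqpos]
        exact hq'
      linarith) hl0pos le_rfl
  rw [prod_Pr hwy, Pr_union hwy] at h5
  -- the Mertens product
  have h6 : Real.exp (-84) ≤ ∏ q ∈ PI w y, (1 - (3 / 2) / (q : ℝ)) := by
    have h7 : Real.exp (-(2 * ∑ q ∈ PI w y, (3 / 2) / (q : ℝ))) ≤ ∏ q ∈ PI w y, (1 - (3 / 2) / (q : ℝ)) := by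
      rw [Finset.mul_sum, ← Finset.sum_neg_distrib, Real.exp_sum]
      refine Finset.prod_le_prod (fun _ _ => (Real.exp_pos _).le) fun q hq => ?_
      have h8 := mem_PI.1 hq
      refine exp_neg_le (by positivity) ?_
      have h9 : (3 : ℝ) ≤ q := by exact_mod_cast (show 3 ≤ q by omega)
      rw [div_le_div_iff₀ (by linarith) (by norm_num)]
      linarith
    refine le_trans (Real.exp_le_exp.2 ?_) h7
    have h8 : ∑ q ∈ PI w y, (3 / 2) / (q : ℝ) = (3 / 2) * ∑ q ∈ PI w y, (1 : ℝ) / q := by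
      rw [Finset.mul_sum]
      exact Finset.sum_congr rfl fun q _ => by ring
    have h9 := sum_PI hJ 7
    have h10 : 2 ^ 7 * 2 ^ J = 128 * 2 ^ J := by norm_num
    rw [h10] at h9
    rw [h8]
    push_cast at h9
    linarith
  have h7 : ∑ a ∈ range (∏ q ∈ Pr w, q), Real.exp (-(l0 * (∏ q ∈ PI w y, (1 - (3 / 2) / (q : ℝ))) *
      (Sf a (Pr w) y).card)) ≤ ((∏ q ∈ Pr w, q : ℕ) : ℝ) *
        Real.exp (-(2 ^ 2 ^ J * Real.exp (-84) * Real.exp (-8) ^ (J + 1) / 16)) := by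
    rw [← nsmul_eq_mul, ← card_range (∏ q ∈ Pr w, q), ← Finset.sum_const, card_range]
    refine Finset.sum_le_sum fun a _ => Real.exp_le_exp.2 ?_
    have h8 := count_ge J a y le_rfl
    have h9 : l0 * Real.exp (-84) * (Real.exp (-8) ^ (J + 1) / 4 * y) ≤
        l0 * (∏ q ∈ PI w y, (1 - (3 / 2) / (q : ℝ))) * (Sf a (Pr w) y).card := by
      refine mul_le_mul (mul_le_mul_of_nonneg_left h6 hl0pos) h8 (by positivity) ?_
      exact mul_nonneg hl0pos ((Real.exp_pos _).le.trans h6)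
    have h10 : l0 * Real.exp (-84) * (Real.exp (-8) ^ (J + 1) / 4 * y) =
        2 ^ 2 ^ J * Real.exp (-84) * Real.exp (-8) ^ (J + 1) / 16 := by
      have h11 : (w : ℝ) = 2 ^ 2 ^ J := by
        rw [hw]
        push_cast
        rfl
      rw [hl0, h11]
      field_simp
      ring
    linarith
  calc (((range (MM y)).filter fun n => bad y n).card : ℝ)
      ≤ ((∏ p ∈ PI y (4 * y), p : ℕ) : ℝ) * (((∏ p ∈ PI w y, p : ℕ) : ℝ) * (((∏ q ∈ Pr w, q : ℕ) : ℝ) *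
        Real.exp (-(2 ^ 2 ^ J * Real.exp (-84) * Real.exp (-8) ^ (J + 1) / 16)))) := by
        refine h2.trans (mul_le_mul_of_nonneg_left (h4.trans (h5.trans ?_)) (Nat.cast_nonneg _))
        exact mul_le_mul_of_nonneg_left h7 (Nat.cast_nonneg _)
    _ = MM y * Real.exp (-(2 ^ 2 ^ J * Real.exp (-84) * Real.exp (-8) ^ (J + 1) / 16)) := by
        unfold MM
        rw [← prod_Pr (show y ≤ 4 * y by omega), ← prod_Pr hwy]
        push_cast
        ring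

end Pool.Agent.Helper4.GR
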