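import Pool.Agent.Helper4.GR.Count

/-!
# The residues modulo different primes are independent
-/

set_option autoImplicit false

open Finset

namespace Pool.Agent.Helper4.GR

theorem sum_crt {M q : ℕ} (hM : 0 < M) (hq : 0 < q) (hc : M.Coprime q) (H : ℕ → ℕ → ℝ) :
    ∑ n ∈ range (M * q), H (n % M) (n % q) = ∑ a ∈ range M, ∑ b ∈ range q, H a b := by
  rw [← Finset.sum_product']
  refine Finset.sum_bij (fun n _ => (n % M, n % q)) ?_ ?_ ?_ ?_
  · intro n _
    rw [mem_product, mem_range, mem_range]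
    exact ⟨Nat.mod_lt _ hM, Nat.mod_lt _ hq⟩
  · intro n hn n' hn' h
    rw [Prod.mk.injEq] at h
    have h1 : n ≡ n' [MOD M * q] := (Nat.modEq_and_modEq_iff_modEq_mul hc).1 h
    have h2 := mem_range.1 hn
    have h3 := mem_range.1 hn'
    have h4 : n % (M * q) = n' % (M * q) := h1
    rwa [Nat.mod_eq_of_lt h2, Nat.mod_eq_of_lt h3] at h4
  · rintro ⟨a, b⟩ hab
    rw [mem_product, mem_range, mem_range] at hab
    obtain ⟨k, hk1, hk2⟩ := Nat.chineseRemainder hc a b
    refine ⟨k % (M * q), mem_range.2 (Nat.mod_lt _ (Nat.mul_pos hM hq)), ?_⟩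
    have h1 : k % (M * q) % M = a := by
      rw [Nat.mod_mul_right_mod]
      have h2 : k % M = a % M := hk1
      rw [h2, Nat.mod_eq_of_lt hab.1]
    have h2 : k % (M * q) % q = b := by
      rw [Nat.mod_mul_left_mod]
      have h3 : k % q = b % q := hk2
      rw [h3, Nat.mod_eq_of_lt hab.2]
    rw [h1, h2]
  · intro n _
    rfl

theorem Sf_congr {n n' : ℕ} {P : Finset ℕ} (y : ℕ) (h : ∀ q ∈ P, n ≡ n' [MOD q]) : Sf n P y = Sf n' P y := by
  unfold Sf
  refine Finset.filter_congr fun r _ => ?_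
  constructor
  · intro h1 q hq h2
    exact h1 q hq (h2.trans (h q hq).symm)
  · intro h1 q hq h2
    exact h1 q hq (h2.trans (h q hq))

theorem Sf_mod {n M : ℕ} {P : Finset ℕ} (y : ℕ) (h : ∀ q ∈ P, q ∣ M) : Sf (n % M) P y = Sf n P y :=
  Sf_congr y fun q hq => (Nat.mod_modEq n M).of_dvd (h q hq)

theorem card_insert_q {P : Finset ℕ} (n q y : ℕ) :
    ((Sf n (insert q P) y).card : ℝ) = (Sf n P y).card - (((Sf n P y).filter fun r => r % q = n % q).card : ℝ) := by
  have h1 := Finset.card_filter_add_card_filter_not (s := Sf n P y) (fun r => r % q = n % q)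
  have h2 : Sf n (insert q P) y = (Sf n P y).filter fun r => ¬ r % q = n % q := by
    unfold Sf
    rw [Finset.filter_filter]
    refine Finset.filter_congr fun r _ => ?_
    rw [Finset.forall_mem_insert, and_comm]
    rfl
  rw [h2, ← h1]
  push_cast
  ring

theorem sum_fiber (S : Finset ℕ) {q : ℕ} (hq : 0 < q) :
    ∑ b ∈ range q, ((S.filter fun r => r % q = b).card : ℝ) = S.card := by
  have h1 := Finset.card_eq_sum_card_fiberwise (s := S) (t := range q) (f := fun r => r % q)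
    (fun r _ => by
      rw [mem_coe, mem_range]
      exact Nat.mod_lt _ hq)
  rw [h1]
  push_cast
  rfl

theorem fiber_le {n q y : ℕ} (P : Finset ℕ) (hq : 0 < q) (hqy : q ≤ y) (b : ℕ) :
    (((Sf n P y).filter fun r => r % q = b).card : ℝ) ≤ 2 * y / q := by
  have h1 : ((Sf n P y).filter fun r => r % q = b).card ≤ y / q + 1 := by
    have h2 : ((Sf n P y).filter fun r => r % q = b).card ≤ (range (y / q + 1)).card := by
      refine Finset.card_le_card_of_injOn (fun r => r / q) ?_ ?_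
      · intro r hr
        rw [mem_coe, mem_filter] at hr
        have h3 := mem_Icc.1 (mem_filter.1 hr.1).1
        rw [mem_coe, mem_range]
        show r / q < y / q + 1
        have := Nat.div_le_div_right (c := q) h3.2
        omega
      · intro r hr r' hr' h
        rw [mem_coe, mem_filter] at hr hr'
        have h3 : r / q = r' / q := h
        rw [← Nat.div_add_mod r q, ← Nat.div_add_mod r' q, h3, hr.2, hr'.2]
    rwa [card_range] at h2
  have h2 : (((y / q + 1 : ℕ)) : ℝ) ≤ 2 * y / q := by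
    push_cast
    have h3 : ((y / q : ℕ) : ℝ) ≤ y / q := Nat.cast_div_le
    have hq' : (0 : ℝ) < q := by exact_mod_cast hq
    have h4 : (1 : ℝ) ≤ y / q := by
      rw [le_div_iff₀ hq', one_mul]
      exact_mod_cast hqy
    have h5 : 2 * (y : ℝ) / q = y / q + y / q := by ring
    rw [h5]
    linarith
  exact le_trans (by exact_mod_cast h1) h2

theorem exp_le_quad {u : ℝ} (h0 : 0 ≤ u) (h1 : u ≤ 1) : Real.exp u ≤ 1 + u + u ^ 2 := by
  have h2 := Real.abs_exp_sub_one_sub_id_le (x := u) (by rw [abs_of_nonneg h0]; exact h1)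
  have h3 := (abs_le.1 h2).2
  linarith

theorem med_step {M q y : ℕ} {P : Finset ℕ} (hP : ∀ p ∈ P, p ∣ M) (hM : 0 < M) (hq : 0 < q)
    (hc : M.Coprime q) (hqy : q ≤ y) {l m ρ : ℝ} (hl : 0 ≤ l) (hρ : l * (2 * y / q) ≤ ρ) (hρ1 : ρ ≤ 1)
    (hm : m ≤ l * (1 - (1 + ρ) / q)) :
    ∑ n ∈ range (M * q), Real.exp (-(l * (Sf n (insert q P) y).card)) ≤
      q * ∑ a ∈ range M, Real.exp (-(m * (Sf a P y).card)) := by
  have hq' : (0 : ℝ) < q := by exact_mod_cast hq
  have h1 : ∑ n ∈ range (M * q), Real.exp (-(l * (Sf n (insert q P) y).card)) =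
      ∑ n ∈ range (M * q), (fun a b => Real.exp (-(l * (((Sf a P y).card : ℝ) -
        (((Sf a P y).filter fun r => r % q = b).card : ℝ))))) (n % M) (n % q) := by
    refine Finset.sum_congr rfl fun n _ => ?_
    dsimp only
    rw [card_insert_q, Sf_mod y hP]
  rw [h1, sum_crt hM hq hc (fun a b => Real.exp (-(l * (((Sf a P y).card : ℝ) -
        (((Sf a P y).filter fun r => r % q = b).card : ℝ))))), Finset.mul_sum]
  refine Finset.sum_le_sum fun a _ => ?_
  set N : ℝ := ((Sf a P y).card : ℝ) with hN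
  have hN0 : 0 ≤ N := Nat.cast_nonneg _
  have h2 : ∀ b ∈ range q, Real.exp (-(l * (N - (((Sf a P y).filter fun r => r % q = b).card : ℝ)))) ≤
      Real.exp (-(l * N)) * (1 + l * (1 + ρ) * (((Sf a P y).filter fun r => r % q = b).card : ℝ)) := by
    intro b _
    set s : ℝ := (((Sf a P y).filter fun r => r % q = b).card : ℝ) with hs
    have hs0 : 0 ≤ s := Nat.cast_nonneg _
    have h3 : l * s ≤ ρ := (mul_le_mul_of_nonneg_left (fiber_le P hq hqy b) hl).trans hρ
    have h4 : -(l * (N - s)) = -(l * N) + l * s := by ring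
    rw [h4, Real.exp_add]
    refine mul_le_mul_of_nonneg_left ?_ (Real.exp_pos _).le
    have h5 := exp_le_quad (mul_nonneg hl hs0) (h3.trans hρ1)
    have h6 : (l * s) ^ 2 ≤ l * s * ρ := by
      rw [pow_two]
      exact mul_le_mul_of_nonneg_left h3 (mul_nonneg hl hs0)
    nlinarith
  refine (Finset.sum_le_sum h2).trans ?_
  rw [← Finset.mul_sum, Finset.sum_add_distrib, ← Finset.mul_sum, sum_fiber _ hq, Finset.sum_const, card_range,
    nsmul_eq_mul, mul_one, ← hN]
  have h3 : (q : ℝ) + l * (1 + ρ) * N = q * (l * (1 + ρ) * N / q + 1) := by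
    field_simp
    ring
  rw [h3]
  have h4 : l * (1 + ρ) * N / q + 1 ≤ Real.exp (l * (1 + ρ) * N / q) := Real.add_one_le_exp _
  calc Real.exp (-(l * N)) * (q * (l * (1 + ρ) * N / q + 1))
      ≤ Real.exp (-(l * N)) * (q * Real.exp (l * (1 + ρ) * N / q)) := by gcongr
    _ = q * Real.exp (-(l * (1 - (1 + ρ) / q) * N)) := by
        rw [mul_left_comm, ← Real.exp_add]
        congr 2
        ring
    _ ≤ q * Real.exp (-(m * N)) := by
        refine mul_le_mul_of_nonneg_left (Real.exp_le_exp.2 ?_) hq'.le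
        have := mul_le_mul_of_nonneg_right hm hN0
        linarith

theorem coprime_prod {M q : ℕ} {Q : Finset ℕ} (hq : q.Prime) (hM : M.Coprime q) (hQ : ∀ p ∈ Q, p.Prime ∧ p ≠ q) :
    (M * ∏ p ∈ Q, p).Coprime q := by
  refine Nat.Coprime.mul_left hM ?_
  exact Nat.Coprime.prod_left fun p hp => (Nat.coprime_primes (hQ p hp).1 hq).2 (hQ p hp).2

/-- all the primes of `Q` one after the other -/
theorem med_all {M y : ℕ} {P : Finset ℕ} (hP : ∀ p ∈ P, p ∣ M) (hM : 0 < M) {l0 : ℝ} (Q : Finset ℕ)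
    (hQ : ∀ q ∈ Q, q.Prime ∧ M.Coprime q ∧ q ≤ y ∧ 3 ≤ q ∧ l0 * (2 * y / q) ≤ 1 / 2) {l : ℝ} (hl : 0 ≤ l)
    (hl0 : l ≤ l0) :
    ∑ n ∈ range (M * ∏ p ∈ Q, p), Real.exp (-(l * (Sf n (P ∪ Q) y).card)) ≤
      ((∏ p ∈ Q, p : ℕ) : ℝ) * ∑ a ∈ range M, Real.exp (-(l * (∏ q ∈ Q, (1 - (3 / 2) / (q : ℝ))) * (Sf a P y).card)) := by
  induction Q using Finset.induction_on generalizing l with
  | empty => simp
  | insert q Q hqQ ih =>
    have hq := hQ q (mem_insert_self _ _)
    have hQ' : ∀ p ∈ Q, p.Prime ∧ M.Coprime p ∧ p ≤ y ∧ 3 ≤ p ∧ l0 * (2 * y / p) ≤ 1 / 2 :=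
      fun p hp => hQ p (mem_insert_of_mem hp)
    have hq3 : (3 : ℝ) ≤ q := by exact_mod_cast hq.2.2.2.1
    have hqpos : (0 : ℝ) < q := by linarith
    have hx1 : (3 / 2 : ℝ) / q ≤ 1 / 2 := by
      rw [div_le_div_iff₀ hqpos (by norm_num)]
      linarith
    have hx0 : (0 : ℝ) ≤ (3 / 2 : ℝ) / q := by positivity
    have hc : (M * ∏ p ∈ Q, p).Coprime q :=
      coprime_prod hq.1 hq.2.1 fun p hp => ⟨(hQ' p hp).1, fun h => hqQ (h ▸ hp)⟩
    have h1 : ∀ p ∈ P ∪ Q, p ∣ M * ∏ p ∈ Q, p := by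
      intro p hp
      rcases mem_union.1 hp with h | h
      · exact (hP p h).mul_right _
      · exact (Finset.dvd_prod_of_mem _ h).mul_left _
    have hM' : 0 < M * ∏ p ∈ Q, p := Nat.mul_pos hM (Finset.prod_pos fun p hp => (hQ' p hp).1.pos)
    have h2 : l * (2 * y / q) ≤ 1 / 2 := by
      refine le_trans ?_ hq.2.2.2.2
      exact mul_le_mul_of_nonneg_right hl0 (by positivity)
    have h3 := med_step (y := y) h1 hM' hq.1.pos hc hq.2.2.1 hl h2 (by norm_num)
      (m := l * (1 - (3 / 2) / q)) (by norm_num)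
    have h4 : P ∪ insert q Q = insert q (P ∪ Q) := by
      rw [Finset.union_insert]
    have h5 := ih hQ' (l := l * (1 - (3 / 2) / q)) (mul_nonneg hl (by linarith)) (by nlinarith)
    have h7 : ∑ a ∈ range M, Real.exp (-(l * ((1 - (3 / 2) / (q : ℝ)) * ∏ q ∈ Q, (1 - (3 / 2) / (q : ℝ))) *
        (Sf a P y).card)) =
        ∑ a ∈ range M, Real.exp (-(l * (1 - (3 / 2) / (q : ℝ)) * (∏ q ∈ Q, (1 - (3 / 2) / (q : ℝ))) *
        (Sf a P y).card)) := by
      refine Finset.sum_congr rfl fun a _ => ?_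
      congr 1
      ring
    rw [Finset.prod_insert hqQ, Finset.prod_insert hqQ, h4, mul_comm q, ← mul_assoc M, h7]
    refine h3.trans ?_
    have h6 := mul_le_mul_of_nonneg_left h5 hqpos.le
    refine h6.trans (le_of_eq ?_)
    push_cast
    ring

theorem card_large {a p y : ℕ} (P : Finset ℕ) (hyp : y < p) :
    ∑ b ∈ range p, (if ∀ r ∈ Sf a P y, ¬ r % p = b then (1 : ℝ) else 0) = p - (Sf a P y).card := by
  have hsub : Sf a P y ⊆ range p := by
    intro r hr
    have h1 := (mem_Icc.1 (mem_filter.1 hr).1).2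
    rw [mem_range]
    omega
  have h1 : ∑ b ∈ range p, (if ∀ r ∈ Sf a P y, ¬ r % p = b then (1 : ℝ) else 0) =
      (((range p) \ (Sf a P y)).card : ℝ) := by
    rw [Finset.sum_boole]
    congr 2
    ext b
    rw [mem_filter, mem_sdiff]
    refine and_congr_right fun hb => ?_
    constructor
    · intro h hb'
      exact h b hb' (Nat.mod_eq_of_lt (mem_range.1 hb))
    · intro h r hr hrb
      rw [Nat.mod_eq_of_lt (mem_range.1 (hsub hr))] at hrb
      exact h (hrb ▸ hr)
  rw [h1, Finset.card_sdiff_of_subset hsub, Nat.cast_sub (Finset.card_le_card hsub), card_range]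

/-- the large primes -/
theorem large_all {M y : ℕ} {P : Finset ℕ} (hP : ∀ p ∈ P, p ∣ M) (hM : 0 < M) (Q : Finset ℕ)
    (hQ : ∀ q ∈ Q, q.Prime ∧ M.Coprime q ∧ y < q) (m : ℝ) :
    ∑ n ∈ range (M * ∏ p ∈ Q, p), (if ∀ p ∈ Q, ∀ r ∈ Sf n P y, ¬ r % p = n % p then (1 : ℝ) else 0) *
        Real.exp (-(m * (Sf n P y).card)) ≤
      ((∏ p ∈ Q, p : ℕ) : ℝ) * ∑ a ∈ range M, Real.exp (-((m + ∑ q ∈ Q, 1 / (q : ℝ)) * (Sf a P y).card)) := by
  induction Q using Finset.induction_on generalizing m with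
  | empty => simp
  | insert q Q hqQ ih =>
    have hq := hQ q (mem_insert_self _ _)
    have hQ' : ∀ p ∈ Q, p.Prime ∧ M.Coprime p ∧ y < p := fun p hp => hQ p (mem_insert_of_mem hp)
    have hqpos : (0 : ℝ) < q := by exact_mod_cast hq.1.pos
    have hc : (M * ∏ p ∈ Q, p).Coprime q :=
      coprime_prod hq.1 hq.2.1 fun p hp => ⟨(hQ' p hp).1, fun h => hqQ (h ▸ hp)⟩
    have hM' : 0 < M * ∏ p ∈ Q, p := Nat.mul_pos hM (Finset.prod_pos fun p hp => (hQ' p hp).1.pos)
    have hP' : ∀ p ∈ P, p ∣ M * ∏ p ∈ Q, p := fun p hp => (hP p hp).mul_right _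
    rw [Finset.prod_insert hqQ, mul_comm q, ← mul_assoc M]
    have h1 : ∑ n ∈ range (M * (∏ p ∈ Q, p) * q), (if ∀ p ∈ insert q Q, ∀ r ∈ Sf n P y, ¬ r % p = n % p
        then (1 : ℝ) else 0) * Real.exp (-(m * (Sf n P y).card)) =
        ∑ n ∈ range (M * (∏ p ∈ Q, p) * q), (fun a b => (if ∀ p ∈ Q, ∀ r ∈ Sf a P y, ¬ r % p = a % p
          then (1 : ℝ) else 0) * Real.exp (-(m * (Sf a P y).card)) *
          (if ∀ r ∈ Sf a P y, ¬ r % q = b then (1 : ℝ) else 0)) (n % (M * ∏ p ∈ Q, p)) (n % q) := by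
      refine Finset.sum_congr rfl fun n _ => ?_
      dsimp only
      rw [Sf_mod y hP']
      have h2 : (∀ p ∈ Q, ∀ r ∈ Sf n P y, ¬ r % p = n % (M * ∏ p ∈ Q, p) % p) ↔
          ∀ p ∈ Q, ∀ r ∈ Sf n P y, ¬ r % p = n % p := by
        have h3 : ∀ p ∈ Q, n % (M * ∏ p ∈ Q, p) % p = n % p := fun p hp =>
          Nat.mod_mod_of_dvd n ((Finset.dvd_prod_of_mem _ hp).mul_left _)
        constructor
        · intro h p hp r hr
          rw [← h3 p hp]
          exact h p hp r hr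
        · intro h p hp r hr
          rw [h3 p hp]
          exact h p hp r hr
      have h7 : (∀ p ∈ insert q Q, ∀ r ∈ Sf n P y, ¬ r % p = n % p) ↔
          (∀ r ∈ Sf n P y, ¬ r % q = n % q) ∧ ∀ p ∈ Q, ∀ r ∈ Sf n P y, ¬ r % p = n % p :=
        Finset.forall_mem_insert _ _ _
      by_cases h4 : ∀ r ∈ Sf n P y, ¬ r % q = n % q
      · by_cases h5 : ∀ p ∈ Q, ∀ r ∈ Sf n P y, ¬ r % p = n % p
        · rw [if_pos (h7.2 ⟨h4, h5⟩), if_pos (h2.2 h5), if_pos h4]
          ring
        · rw [if_neg fun h => h5 (h7.1 h).2, if_neg fun h => h5 (h2.1 h)]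
          ring
      · rw [if_neg fun h => h4 (h7.1 h).1, if_neg h4]
        ring
    rw [h1, sum_crt hM' hq.1.pos hc (fun a b => (if ∀ p ∈ Q, ∀ r ∈ Sf a P y, ¬ r % p = a % p
          then (1 : ℝ) else 0) * Real.exp (-(m * (Sf a P y).card)) *
          (if ∀ r ∈ Sf a P y, ¬ r % q = b then (1 : ℝ) else 0))]
    have h2 : ∀ a ∈ range (M * ∏ p ∈ Q, p), ∑ b ∈ range q, (if ∀ p ∈ Q, ∀ r ∈ Sf a P y, ¬ r % p = a % p
          then (1 : ℝ) else 0) * Real.exp (-(m * (Sf a P y).card)) *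
          (if ∀ r ∈ Sf a P y, ¬ r % q = b then (1 : ℝ) else 0) ≤
        q * ((if ∀ p ∈ Q, ∀ r ∈ Sf a P y, ¬ r % p = a % p then (1 : ℝ) else 0) *
          Real.exp (-((m + 1 / (q : ℝ)) * (Sf a P y).card))) := by
      intro a _
      rw [← Finset.mul_sum, card_large P hq.2.2]
      split_ifs
      · rw [one_mul, one_mul]
        have h3 : (q : ℝ) - (Sf a P y).card = q * (-((Sf a P y).card / q) + 1) := by
          field_simp
          ring
        have h4 : -(((Sf a P y).card : ℝ) / q) + 1 ≤ Real.exp (-((Sf a P y).card / q)) := Real.add_one_le_exp _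
        rw [h3]
        calc Real.exp (-(m * (Sf a P y).card)) * (q * (-((Sf a P y).card / q) + 1))
            ≤ Real.exp (-(m * (Sf a P y).card)) * (q * Real.exp (-((Sf a P y).card / q))) := by gcongr
          _ = q * Real.exp (-((m + 1 / (q : ℝ)) * (Sf a P y).card)) := by
              rw [mul_left_comm, ← Real.exp_add]
              congr 2
              ring
      · rw [zero_mul, zero_mul, zero_mul, mul_zero]
    have h8 : ∑ a ∈ range M, Real.exp (-((m + ∑ q ∈ insert q Q, 1 / (q : ℝ)) * (Sf a P y).card)) =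
        ∑ a ∈ range M, Real.exp (-((m + 1 / (q : ℝ) + ∑ q ∈ Q, 1 / (q : ℝ)) * (Sf a P y).card)) := by
      refine Finset.sum_congr rfl fun a _ => ?_
      rw [Finset.sum_insert hqQ, add_assoc]
    rw [h8]
    refine (Finset.sum_le_sum h2).trans ?_
    rw [← Finset.mul_sum]
    have h3 := mul_le_mul_of_nonneg_left (ih hQ' (m + 1 / (q : ℝ))) hqpos.le
    refine h3.trans (le_of_eq ?_)
    push_cast
    ring

end Pool.Agent.Helper4.GR
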